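import Pool.Agent.H76.RF.LINU

/-!
# MP_609556_an, full answer: module CONV (convergence of the derivatives)
-/

open MeasureTheory Set Filter Topology Metric
open Pool.Agent.H29.TF
open Pool.Agent.H91.RD Pool.Agent.H91.RF

namespace Pool.Agent.H76.RF

variable {N : ℕ}

/-! ### elementary lemmas -/

theorem opnorm_of_sphere {L : E N →L[ℝ] ℝ} {s B : ℝ} (hs : 0 < s) (hB : 0 ≤ B)
    (h : ∀ y, ‖y‖ = s → |L y| ≤ B) : ‖L‖ ≤ B / s := by
  refine ContinuousLinearMap.opNorm_le_of_unit_norm (by positivity) fun x hx => ?_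
  have h1 := h (s • x) (by rw [norm_smul, hx, mul_one, Real.norm_of_nonneg hs.le])
  rw [map_smul, smul_eq_mul, abs_mul, abs_of_pos hs] at h1
  rw [Real.norm_eq_abs, le_div_iff₀ hs]
  linarith

/-- first order Taylor bound from a Lipschitz gradient -/
theorem taylor_space {g : E N → ℝ} {C : ℝ} (hg : Differentiable ℝ g)
    (hC : ∀ x y, ‖fderiv ℝ g x - fderiv ℝ g y‖ ≤ C * ‖x - y‖) (hC0 : 0 ≤ C) (x y : E N) :
    |g (x + y) - g x - fderiv ℝ g x y| ≤ C * ‖y‖ * ‖y‖ := by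
  have h1 := Convex.norm_image_sub_le_of_norm_hasFDerivWithin_le (𝕜 := ℝ)
    (f := fun z => g z - fderiv ℝ g x z) (f' := fun z => fderiv ℝ g z - fderiv ℝ g x)
    (s := closedBall x ‖y‖) (x := x) (y := x + y) (C := C * ‖y‖)
    (fun z _ => ((hg z).hasFDerivAt.sub (fderiv ℝ g x).hasFDerivAt).hasFDerivWithinAt)
    (fun z hz => (hC z x).trans (mul_le_mul_of_nonneg_left (by
      rwa [mem_closedBall_iff_norm] at hz) hC0))
    (convex_closedBall x _) (mem_closedBall_self (norm_nonneg _))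
    (by rw [mem_closedBall_iff_norm, add_sub_cancel_left])
  rw [add_sub_cancel_left, Real.norm_eq_abs, map_add] at h1
  have e : g (x + y) - (fderiv ℝ g x x + fderiv ℝ g x y) - (g x - fderiv ℝ g x x) =
      g (x + y) - g x - fderiv ℝ g x y := by ring
  rwa [e] at h1

theorem taylor_time {φ φ' : ℝ → ℝ} {t δ B : ℝ}
    (hd : ∀ s, |s - t| ≤ |δ| → HasDerivAt φ (φ' s) s)
    (hB : ∀ s, |s - t| ≤ |δ| → |φ' s - φ' t| ≤ B) : |φ (t + δ) - φ t - δ * φ' t| ≤ B * |δ| := by
  have h1 := Convex.norm_image_sub_le_of_norm_hasDerivWithin_le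
    (f := fun s => φ s - s * φ' t) (f' := fun s => φ' s - φ' t)
    (s := closedBall t |δ|) (x := t) (y := t + δ) (C := B)
    (fun s hs => by
      rw [mem_closedBall, Real.dist_eq] at hs
      have h2 := (hd s hs).sub ((hasDerivAt_id s).mul_const (φ' t))
      simp only [id, one_mul] at h2
      exact h2.hasDerivWithinAt)
    (fun s hs => by
      rw [mem_closedBall, Real.dist_eq] at hs
      rw [Real.norm_eq_abs]
      exact hB s hs)
    (convex_closedBall t _) (mem_closedBall_self (abs_nonneg _))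
    (by rw [mem_closedBall, Real.dist_eq, add_sub_cancel_left])
  rw [add_sub_cancel_left, Real.norm_eq_abs, Real.norm_eq_abs] at h1
  have e : φ (t + δ) - (t + δ) * φ' t - (φ t - t * φ' t) = φ (t + δ) - φ t - δ * φ' t := by ring
  rwa [e] at h1

theorem lap_eq {g : E N → ℝ} (hg : ContDiff ℝ 2 g) (x : E N) :
    Laplacian.laplacian g x = ∑ i, fderiv ℝ (fun y => fderiv ℝ g y
      ((stdOrthonormalBasis ℝ (E N)) i)) x ((stdOrthonormalBasis ℝ (E N)) i) := by
  rw [InnerProductSpace.laplacian_eq_iteratedFDeriv_stdOrthonormalBasis]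
  refine Finset.sum_congr rfl fun i _ => ?_
  rw [iteratedFDeriv_two_apply]
  simp only [Matrix.cons_val_zero, Matrix.cons_val_one]
  have h1 : DifferentiableAt ℝ (fderiv ℝ g) x :=
    (hg.fderiv_right (m := 1) (by norm_num)).differentiable (by norm_num) x
  rw [fderiv_clm_apply h1 (by fun_prop)]
  simp

theorem hasDerivAt_of_taylor {φ : ℝ → ℝ} {t g D : ℝ} (hD : 0 ≤ D)
    (h : ∀ δ, |δ| ≤ 1 → |φ (t + δ) - φ t - δ * g| ≤ D * √|δ| * |δ|) : HasDerivAt φ g t := by
  rw [hasDerivAt_iff_isLittleO_nhds_zero, Asymptotics.isLittleO_iff]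
  intro c hc
  have h1 : ∀ᶠ δ : ℝ in 𝓝 0, D * √|δ| < c := by
    have : ContinuousAt (fun δ : ℝ => D * √|δ|) 0 := by fun_prop
    have h2 := this.tendsto
    simp only [abs_zero, Real.sqrt_zero, mul_zero] at h2
    exact h2.eventually (gt_mem_nhds hc)
  have h2 : ∀ᶠ δ : ℝ in 𝓝 0, |δ| ≤ 1 := by
    filter_upwards [Metric.closedBall_mem_nhds (0 : ℝ) one_pos] with δ hδ
    rwa [mem_closedBall, Real.dist_eq, sub_zero] at hδ
  filter_upwards [h1, h2] with δ h3 h4
  rw [Real.norm_eq_abs, Real.norm_eq_abs, smul_eq_mul]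
  exact (h δ h4).trans (mul_le_mul_of_nonneg_right h3.le (abs_nonneg _))

/-! ### the setting -/

/-- data and uniform bounds -/
structure Cv (A C D : ℝ) (f : ℝ → ℝ) (K : ℝ) (U : Set (E N)) (u : ℝ → E N → ℝ) (tn : ℕ → ℝ)
    (xn : ℕ → E N) (w : ℝ → E N → ℝ) : Prop where
  hA : 0 ≤ A
  hG : GB N A
  hFb : ∀ s, |fp f s| ≤ K
  hFc : ContinuousOn (fp f) (Icc 0 1)
  hFm : Measurable (fp f)
  hF : ∀ s ∈ Icc (0 : ℝ) 1, HasDerivWithinAt f (fp f s) (Icc 0 1) s
  hL : Lip f K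
  hS : SolM f U u
  ht : Tendsto tn atTop atTop
  ent : Ent f w
  lim : LimAt u tn xn w
  hC0 : 0 ≤ C
  hD0 : 0 ≤ D
  lip : ∀ t ≥ 1, ∀ x y, |u t x - u t y| ≤ C * ‖x - y‖
  bd : ∀ t ≥ 1, ∀ x, ‖fderiv ℝ (u t) x‖ ≤ C ∧ |dt u t x| ≤ C ∧
        ∀ x', ‖fderiv ℝ (u t) x - fderiv ℝ (u t) x'‖ ≤ C * ‖x - x'‖
  tm : ∀ t ≥ 2, ∀ t' ≥ 2, |t' - t| ≤ 1 → ∀ x, |dt u t' x - dt u t x| ≤ D * √|t' - t|

variable {A C D : ℝ} {f : ℝ → ℝ} {K : ℝ} {U : Set (E N)} {u : ℝ → E N → ℝ} {tn : ℕ → ℝ}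
    {xn : ℕ → E N} {w : ℝ → E N → ℝ}

theorem Cv.ev (H : Cv A C D f K U u tn xn w) (b t : ℝ) : ∀ᶠ n in atTop, b ≤ tn n + t := by
  have h1 := H.ht.eventually_ge_atTop (b - t)
  filter_upwards [h1] with n hn
  linarith

/-- [T1] -/
theorem Cv.dh_sh (H : Cv A C D f K U u tn xn w) {s t : ℝ} (hst : s < t) :
    ∀ᶠ n in atTop, Dh (1 + K) (fun r x => u (tn n + r) (xn n + x))
      (fun r x => f (u (tn n + r) (xn n + x))) s t := by
  filter_upwards [H.ev 1 s] with n hn
  exact (dh_u H.hL H.hS (s := tn n + s) (t := tn n + t) (by linarith) (by linarith)).shift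
    (tn n) (xn n)

/-- [T2] -/
theorem Cv.dh_w (H : Cv A C D f K U u tn xn w) {s t : ℝ} (hst : s < t) :
    Dh (1 + K) w (fun r x => f (w r x)) s t := by
  refine Dh.lim hst (H.dh_sh hst) (H.ent.continuous_space s).measurable
    ((H.hL.continuous.comp H.ent.continuous).continuousOn) (fun y => H.lim.tendsto s y)
    (fun y => H.lim.tendsto t y) (fun r _ y => ?_)
  exact (H.hL.continuous.tendsto _).comp (H.lim.tendsto r y)

/-- [T4] -/
theorem Cv.tendsto_fderiv (H : Cv A C D f K U u tn xn w) (t : ℝ) (x : E N) :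
    Tendsto (fun n => fderiv ℝ (u (tn n + t)) (xn n + x)) atTop (𝓝 (fderiv ℝ (w t) x)) := by
  have hst : t - 1 < t := by linarith
  have h1 := Dh.tendsto_GD (z0 := w) (S0 := fun r x => f (w r x)) H.hA H.hG hst (H.dh_sh hst)
    (fun y => H.lim.tendsto (t - 1) y)
    (fun r _ y => (H.hL.continuous.tendsto _).comp (H.lim.tendsto r y)) x
  rw [((H.dh_w hst).hasFDerivAt H.hA H.hG x).fderiv]
  refine h1.congr' ?_
  filter_upwards [H.dh_sh hst] with n hn
  have h2 := (hn.hasFDerivAt H.hA H.hG x).fderiv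
  rw [← h2]
  exact fderiv_comp_add_left (xn n)

/-- [T5] -/
theorem Cv.taylor_u (H : Cv A C D f K U u tn xn w) {t : ℝ} (ht : 1 ≤ t) (x y : E N) :
    |u t (x + y) - u t x - fderiv ℝ (u t) x y| ≤ C * ‖y‖ * ‖y‖ :=
  taylor_space ((H.hS.sol.c2 t (by linarith)).differentiable (by norm_num))
    (fun x y => (H.bd t ht x).2.2 y) H.hC0 x y

theorem Cv.taylor_w (H : Cv A C D f K U u tn xn w) (t : ℝ) (x y : E N) :
    |w t (x + y) - w t x - fderiv ℝ (w t) x y| ≤ C * ‖y‖ * ‖y‖ := by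
  have h1 : Tendsto (fun n => |u (tn n + t) (xn n + (x + y)) - u (tn n + t) (xn n + x) -
      fderiv ℝ (u (tn n + t)) (xn n + x) y|) atTop
      (𝓝 |w t (x + y) - w t x - fderiv ℝ (w t) x y|) := by
    refine (((H.lim.tendsto t (x + y)).sub (H.lim.tendsto t x)).sub ?_).abs
    exact ((ContinuousLinearMap.apply ℝ ℝ y).continuous.tendsto _).comp (H.tendsto_fderiv t x)
  refine le_of_tendsto h1 ?_
  filter_upwards [H.ev 1 t] with n hn
  rw [← add_assoc]
  exact H.taylor_u hn _ _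

/-- closeness of `u_n` and `w` on a box -/
theorem Cv.close (H : Cv A C D f K U u tn xn w) {R η : ℝ} (hR : 0 < R) (hη : 0 < η) :
    ∀ᶠ n in atTop, ∀ t ∈ Icc (-R) R, ∀ x ∈ closedBall (0 : E N) R,
      |u (tn n + t) (xn n + x) - w t x| < η := by
  have h1 := Metric.tendstoUniformlyOn_iff.1 (H.lim R hR) η hη
  filter_upwards [h1] with n hn t ht x hx
  have h2 := hn (t, x) ⟨ht, hx⟩
  rwa [dist_comm, Real.dist_eq] at h2

/-- [T6] uniform convergence of the gradients -/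
theorem Cv.unif_fderiv (H : Cv A C D f K U u tn xn w) {R : ℝ} (hR : 0 < R) :
    TendstoUniformlyOn (fun n (p : ℝ × E N) => fderiv ℝ (u (tn n + p.1)) (xn n + p.2))
        (fun p => fderiv ℝ (w p.1) p.2) atTop (Icc (-R) R ×ˢ closedBall 0 R) := by
  rw [Metric.tendstoUniformlyOn_iff]
  intro ε hε
  have hC0 := H.hC0
  set s : ℝ := min 1 (ε / (8 * (C + 1))) with hs
  have hs0 : 0 < s := by positivity
  have hs1 : s ≤ 1 := min_le_left _ _
  have hs2 : C * s ≤ ε / 8 := by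
    have h1 : s ≤ ε / (8 * (C + 1)) := min_le_right _ _
    have h2 : C * s ≤ (C + 1) * (ε / (8 * (C + 1))) :=
      mul_le_mul (by linarith) h1 hs0.le (by linarith)
    have h3 : (C + 1) * (ε / (8 * (C + 1))) = ε / 8 := by field_simp
    linarith
  filter_upwards [H.close (R := R + 1) (η := s * ε / 8) (by linarith) (by positivity),
    H.ev 1 (-R)] with n hn hn1
  rintro ⟨t, x⟩ ⟨ht, hx⟩
  simp only at ht hx
  rw [mem_closedBall_zero_iff] at hx
  have ht1 : 1 ≤ tn n + t := by linarith [ht.1]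
  have htR : t ∈ Icc (-(R + 1)) (R + 1) := ⟨by linarith [ht.1], by linarith [ht.2]⟩
  rw [dist_comm, dist_eq_norm]
  have h1 : ‖fderiv ℝ (u (tn n + t)) (xn n + x) - fderiv ℝ (w t) x‖ ≤
      (C * s * s + C * s * s + (s * ε / 8 + s * ε / 8)) / s := by
    refine opnorm_of_sphere hs0 (by positivity) fun y hy => ?_
    have a1 := H.taylor_u ht1 (xn n + x) y
    have a2 := H.taylor_w t x y
    have a3 := (hn t htR (x + y) (by
      rw [mem_closedBall_zero_iff]
      exact (norm_add_le _ _).trans (by linarith))).le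
    have a4 := (hn t htR x (by rw [mem_closedBall_zero_iff]; linarith)).le
    rw [← add_assoc] at a3
    rw [hy] at a1 a2
    rw [ContinuousLinearMap.sub_apply]
    rw [abs_le] at a1 a2 a3 a4 ⊢
    constructor <;> linarith [a1.1, a1.2, a2.1, a2.2, a3.1, a3.2, a4.1, a4.2]
  refine lt_of_le_of_lt h1 ?_
  rw [div_lt_iff₀ hs0]
  have h2 : C * s * s ≤ ε / 8 * s := mul_le_mul_of_nonneg_right hs2 hs0.le
  nlinarith

/-- from uniform convergence on boxes to continuity -/
theorem cont_of_boxes {F : Type*} [NormedAddCommGroup F] {v : ℕ → ℝ × E N → F} {v0 : ℝ × E N → F}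
    (h : ∀ R > 0, TendstoUniformlyOn v v0 atTop (Icc (-R) R ×ˢ closedBall (0 : E N) R))
    (hc : ∀ R > 0, ∀ᶠ n in atTop, ContinuousOn (v n) (Icc (-R) R ×ˢ closedBall (0 : E N) R)) :
    Continuous v0 := by
  rw [continuous_iff_continuousAt]
  rintro ⟨t, x⟩
  have hR : 0 < |t| + ‖x‖ + 1 := by positivity
  have h1 := (h _ hR).continuousOn (hc _ hR).frequently
  refine h1.continuousAt ?_
  refine prod_mem_nhds ?_ ?_
  · apply Icc_mem_nhds
    · have := neg_abs_le t
      have := norm_nonneg x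
      linarith
    · have := le_abs_self t
      have := norm_nonneg x
      linarith
  · refine Filter.mem_of_superset (Metric.ball_mem_nhds x one_pos) fun y hy => ?_
    rw [mem_ball_iff_norm] at hy
    rw [mem_closedBall_zero_iff]
    have h2 : ‖y‖ ≤ ‖y - x‖ + ‖x‖ := by
      have := norm_add_le (y - x) x
      rwa [sub_add_cancel] at this
    have := abs_nonneg t
    linarith

theorem Cv.cont_sh (H : Cv A C D f K U u tn xn w) {F : Type*} [NormedAddCommGroup F]
    {z : ℝ × E N → F} (hz : ContinuousOn z (Ioi 0 ×ˢ univ)) {R : ℝ} :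
    ∀ᶠ n in atTop, ContinuousOn (fun p : ℝ × E N => z (tn n + p.1, xn n + p.2))
      (Icc (-R) R ×ˢ closedBall (0 : E N) R) := by
  filter_upwards [H.ev 1 (-R)] with n hn
  refine hz.comp (f := fun p : ℝ × E N => (tn n + p.1, xn n + p.2)) (by fun_prop) ?_
  rintro ⟨t, x⟩ ⟨ht, _⟩
  refine ⟨?_, mem_univ _⟩
  show 0 < tn n + t
  have := ht.1
  simp only at this
  linarith

/-- [T7] -/
theorem Cv.cont_fderiv (H : Cv A C D f K U u tn xn w) :
    Continuous (fun p : ℝ × E N => fderiv ℝ (w p.1) p.2) :=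
  cont_of_boxes (fun R hR => H.unif_fderiv hR) fun R _ =>
    H.cont_sh (z := fun p : ℝ × E N => fderiv ℝ (u p.1) p.2) H.hS.sol.cont_dx

theorem Cv.cont_dxw (H : Cv A C D f K U u tn xn w) (h : E N) :
    Continuous (fun p : ℝ × E N => dx w h p.1 p.2) := by
  unfold dx
  exact H.cont_fderiv.clm_apply continuous_const

theorem Cv.cont_potE (H : Cv A C D f K U u tn xn w) :
    Continuous (fun p : ℝ × E N => potE f w p.1 p.2) := by
  unfold potE
  exact H.hFc.comp_continuous H.ent.continuous fun p => H.ent.2 p.1 p.2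

theorem Cv.tendsto_pot (H : Cv A C D f K U u tn xn w) (t : ℝ) (x : E N) :
    Tendsto (fun n => pot f u (tn n + t) (xn n + x)) atTop (𝓝 (potE f w t x)) := by
  have h1 : Tendsto (fun n => u (tn n + t) (xn n + x)) atTop (𝓝[Icc 0 1] (w t x)) := by
    apply tendsto_nhdsWithin_of_tendsto_nhds_of_eventually_within _ (H.lim.tendsto t x)
    filter_upwards [H.ev 1 t] with n hn
    exact u_mem H.hS (by linarith) _
  have h2 := (H.hFc (w t x) (H.ent.2 t x)).tendsto.comp h1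
  refine h2.congr' ?_
  filter_upwards [H.ev 1 t] with n hn
  rw [pot_pos (by linarith)]
  rfl

/-- [T8] -/
theorem Cv.dh_sh_dx (H : Cv A C D f K U u tn xn w) (h : E N) {s t : ℝ} (hst : s < t) :
    ∀ᶠ n in atTop, Dh ((1 + K) * (C * ‖h‖)) (fun r x => dx u h (tn n + r) (xn n + x))
      (fun r x => pot f u (tn n + r) (xn n + x) * dx u h (tn n + r) (xn n + x)) s t := by
  filter_upwards [H.ev 1 s] with n hn
  exact (dh_dx H.hFb H.hFc H.hF H.hL H.hS one_pos H.hC0 H.lip h (s := tn n + s) (t := tn n + t)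
    hn (by linarith)).shift (tn n) (xn n)

theorem Cv.tendsto_dx (H : Cv A C D f K U u tn xn w) (h : E N) (t : ℝ) (x : E N) :
    Tendsto (fun n => dx u h (tn n + t) (xn n + x)) atTop (𝓝 (dx w h t x)) :=
  ((ContinuousLinearMap.apply ℝ ℝ h).continuous.tendsto _).comp (H.tendsto_fderiv t x)

theorem Cv.dh_dxw (H : Cv A C D f K U u tn xn w) (h : E N) {s t : ℝ} (hst : s < t) :
    Dh ((1 + K) * (C * ‖h‖)) (dx w h) (fun r x => potE f w r x * dx w h r x) s t := by
  refine Dh.lim hst (H.dh_sh_dx h hst) ?_ ((H.cont_potE.mul (H.cont_dxw h)).continuousOn)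
    (fun y => H.tendsto_dx h s y) (fun y => H.tendsto_dx h t y)
    (fun r _ y => (H.tendsto_pot r y).mul (H.tendsto_dx h r y))
  exact ((H.cont_dxw h).comp (by fun_prop : Continuous fun x : E N => (s, x))).measurable

/-- [T9] -/
theorem Cv.c2w (H : Cv A C D f K U u tn xn w) (t : ℝ) : ContDiff ℝ 2 (w t) := by
  have hst : t - 1 < t := by linarith
  rw [show (2 : WithTop ℕ∞) = 1 + 1 by norm_num, contDiff_succ_iff_fderiv_apply]
  refine ⟨fun x => ((H.dh_w hst).hasFDerivAt H.hA H.hG x).differentiableAt, by simp, fun h => ?_⟩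
  exact (H.dh_dxw h hst).contDiff H.hA H.hG

/-- [T10] -/
theorem Cv.tendsto_lap (H : Cv A C D f K U u tn xn w) (t : ℝ) (x : E N) :
    Tendsto (fun n => Laplacian.laplacian (u (tn n + t)) (xn n + x)) atTop
      (𝓝 (Laplacian.laplacian (w t) x)) := by
  have hst : t - 1 < t := by linarith
  rw [lap_eq (H.c2w t)]
  have key : ∀ h k : E N, Tendsto (fun n => fderiv ℝ (fun y => fderiv ℝ (u (tn n + t)) y h)
      (xn n + x) k) atTop (𝓝 (fderiv ℝ (fun y => fderiv ℝ (w t) y h) x k)) := by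
    intro h k
    have h1 := Dh.tendsto_GD (z0 := dx w h) (S0 := fun r x => potE f w r x * dx w h r x) H.hA H.hG
      hst (H.dh_sh_dx h hst) (fun y => H.tendsto_dx h (t - 1) y)
      (fun r _ y => (H.tendsto_pot r y).mul (H.tendsto_dx h r y)) x
    have h2 := ((ContinuousLinearMap.apply ℝ ℝ k).continuous.tendsto _).comp h1
    have h3 : fderiv ℝ (fun y => fderiv ℝ (w t) y h) x =
        GD (dx w h) (fun r x => potE f w r x * dx w h r x) (t - 1) t x :=
      ((H.dh_dxw h hst).hasFDerivAt H.hA H.hG x).fderiv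
    rw [h3]
    refine h2.congr' ?_
    filter_upwards [H.dh_sh_dx h hst] with n hn
    have h4 := (hn.hasFDerivAt H.hA H.hG x).fderiv
    have h5 : fderiv ℝ (fun y => fderiv ℝ (u (tn n + t)) y h) (xn n + x) =
        fderiv ℝ (fun x => dx u h (tn n + t) (xn n + x)) x :=
      (fderiv_comp_add_left (f := fun y => fderiv ℝ (u (tn n + t)) y h) (xn n)).symm
    simp only [Function.comp]
    rw [h5, h4]
    rfl
  have h1 := tendsto_finsetSum (Finset.univ : Finset (Fin (Module.finrank ℝ (E N)))) fun i _ =>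
    key ((stdOrthonormalBasis ℝ (E N)) i) ((stdOrthonormalBasis ℝ (E N)) i)
  refine h1.congr' ?_
  filter_upwards [H.ev 1 t] with n hn
  rw [lap_eq (H.hS.sol.c2 _ (by linarith))]

/-- the limit of the time derivatives -/
noncomputable def gt (f : ℝ → ℝ) (w : ℝ → E N → ℝ) (t : ℝ) (x : E N) : ℝ :=
  Laplacian.laplacian (w t) x + f (w t x)

/-- [T11] -/
theorem Cv.tendsto_dt (H : Cv A C D f K U u tn xn w) (t : ℝ) (x : E N) :
    Tendsto (fun n => dt u (tn n + t) (xn n + x)) atTop (𝓝 (gt f w t x)) := by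
  have h1 := (H.tendsto_lap t x).add ((H.hL.continuous.tendsto _).comp (H.lim.tendsto t x))
  refine h1.congr' ?_
  filter_upwards [H.ev 1 t] with n hn
  have h2 := H.hS.sol.eqn (tn n + t) (by linarith) (xn n + x)
  unfold dt
  rw [h2]
  rfl

/-- [T12] -/
theorem Cv.ttaylor_u (H : Cv A C D f K U u tn xn w) {t : ℝ} (ht : 3 ≤ t) (x : E N) {δ : ℝ}
    (hδ : |δ| ≤ 1) : |u (t + δ) x - u t x - δ * dt u t x| ≤ D * √|δ| * |δ| := by
  refine taylor_time (φ := fun s => u s x) (φ' := fun s => dt u s x) (fun s hs => ?_)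
    (fun s hs => ?_)
  · have h1 := (abs_le.1 (hs.trans hδ)).1
    exact (H.hS.sol.dt s (by linarith) x).hasDerivAt
  · have h1 := (abs_le.1 (hs.trans hδ)).1
    refine (H.tm t (by linarith) s (by linarith) (hs.trans hδ) x).trans ?_
    exact mul_le_mul_of_nonneg_left (Real.sqrt_le_sqrt hs) H.hD0

theorem Cv.ttaylor_w (H : Cv A C D f K U u tn xn w) (t : ℝ) (x : E N) {δ : ℝ}
    (hδ : |δ| ≤ 1) : |w (t + δ) x - w t x - δ * gt f w t x| ≤ D * √|δ| * |δ| := by
  have h1 : Tendsto (fun n => |u (tn n + (t + δ)) (xn n + x) - u (tn n + t) (xn n + x) -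
      δ * dt u (tn n + t) (xn n + x)|) atTop (𝓝 |w (t + δ) x - w t x - δ * gt f w t x|) :=
    (((H.lim.tendsto (t + δ) x).sub (H.lim.tendsto t x)).sub ((H.tendsto_dt t x).const_mul δ)).abs
  refine le_of_tendsto h1 ?_
  filter_upwards [H.ev 3 t] with n hn
  rw [← add_assoc]
  exact H.ttaylor_u hn _ hδ

theorem Cv.hasDerivAt_w (H : Cv A C D f K U u tn xn w) (t : ℝ) (x : E N) :
    HasDerivAt (fun s => w s x) (gt f w t x) t :=
  hasDerivAt_of_taylor H.hD0 fun _ hδ => H.ttaylor_w t x hδ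

theorem Cv.dtw (H : Cv A C D f K U u tn xn w) (t : ℝ) (x : E N) : dt w t x = gt f w t x :=
  (H.hasDerivAt_w t x).deriv

/-- [T13] uniform convergence of the time derivatives -/
theorem Cv.unif_dt (H : Cv A C D f K U u tn xn w) {R : ℝ} (hR : 0 < R) :
    TendstoUniformlyOn (fun n (p : ℝ × E N) => dt u (tn n + p.1) (xn n + p.2))
        (fun p => dt w p.1 p.2) atTop (Icc (-R) R ×ˢ closedBall 0 R) := by
  rw [Metric.tendstoUniformlyOn_iff]
  intro ε hε
  have hD0 := H.hD0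
  obtain ⟨s, hs0, hs1, hs2⟩ : ∃ s : ℝ, 0 < s ∧ s ≤ 1 ∧ D * √s ≤ ε / 8 := by
    refine ⟨min 1 ((ε / (8 * (D + 1))) ^ 2), by positivity, min_le_left _ _, ?_⟩
    have h1 : √(min 1 ((ε / (8 * (D + 1))) ^ 2)) ≤ ε / (8 * (D + 1)) := by
      refine (Real.sqrt_le_sqrt (min_le_right _ _)).trans ?_
      rw [Real.sqrt_sq (by positivity)]
    have h2 : D * √(min 1 ((ε / (8 * (D + 1))) ^ 2)) ≤ (D + 1) * (ε / (8 * (D + 1))) :=
      mul_le_mul (by linarith) h1 (Real.sqrt_nonneg _) (by linarith)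
    have h3 : (D + 1) * (ε / (8 * (D + 1))) = ε / 8 := by field_simp
    linarith
  filter_upwards [H.close (R := R + 1) (η := s * ε / 8) (by linarith) (by positivity),
    H.ev 3 (-R)] with n hn hn1
  rintro ⟨t, x⟩ ⟨ht, hx⟩
  simp only at ht hx
  rw [mem_closedBall_zero_iff] at hx
  have ht1 : 3 ≤ tn n + t := by linarith [ht.1]
  have hxR : x ∈ closedBall (0 : E N) (R + 1) := by rw [mem_closedBall_zero_iff]; linarith
  have a1 := H.ttaylor_u ht1 (xn n + x) (δ := s) (by rwa [abs_of_pos hs0])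
  have a2 := H.ttaylor_w t x (δ := s) (by rwa [abs_of_pos hs0])
  have a3 := (hn (t + s) ⟨by linarith [ht.1], by linarith [ht.2]⟩ x hxR).le
  have a4 := (hn t ⟨by linarith [ht.1], by linarith [ht.2]⟩ x hxR).le
  rw [← add_assoc] at a3
  rw [abs_of_pos hs0] at a1 a2
  simp only
  rw [H.dtw t x, dist_comm, Real.dist_eq]
  have h2 : D * √s * s ≤ ε / 8 * s := mul_le_mul_of_nonneg_right hs2 hs0.le
  have h3 : |s * (dt u (tn n + t) (xn n + x) - gt f w t x)| ≤ s * (ε / 2) := by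
    rw [abs_le] at a1 a2 a3 a4 ⊢
    constructor <;> linarith [a1.1, a1.2, a2.1, a2.2, a3.1, a3.2, a4.1, a4.2]
  rw [abs_mul, abs_of_pos hs0] at h3
  have h4 := le_of_mul_le_mul_left h3 hs0
  linarith

/-- [T14] -/
theorem Cv.cont_dtw (H : Cv A C D f K U u tn xn w) :
    Continuous (fun p : ℝ × E N => dt w p.1 p.2) :=
  cont_of_boxes (fun R hR => H.unif_dt hR) fun R _ =>
    H.cont_sh (z := fun p : ℝ × E N => dt u p.1 p.2) H.hS.sol.cont_dt

/-- [T15] -/
theorem Cv.dh_dtw (H : Cv A C D f K U u tn xn w) {s t : ℝ} (hst : s < t) :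
    Dh ((1 + K) * C) (dt w) (fun r x => potE f w r x * dt w r x) s t := by
  have h1 : ∀ᶠ n in atTop, Dh ((1 + K) * C) (fun r x => dt u (tn n + r) (xn n + x))
      (fun r x => pot f u (tn n + r) (xn n + x) * dt u (tn n + r) (xn n + x)) s t := by
    filter_upwards [H.ev 1 s] with n hn
    exact (dh_dt H.hFb H.hFc H.hF H.hL H.hS one_pos (fun t ht x => (H.bd t ht x).2.1)
      (s := tn n + s) (t := tn n + t) hn (by linarith)).shift (tn n) (xn n)
  have h2 : ∀ r y, Tendsto (fun n => dt u (tn n + r) (xn n + y)) atTop (𝓝 (dt w r y)) := by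
    intro r y
    rw [H.dtw]
    exact H.tendsto_dt r y
  refine Dh.lim hst h1 ?_ ((H.cont_potE.mul H.cont_dtw).continuousOn)
    (fun y => h2 s y) (fun y => h2 t y) (fun r _ y => (H.tendsto_pot r y).mul (h2 r y))
  exact (H.cont_dtw.comp (by fun_prop : Continuous fun x : E N => (s, x))).measurable

/-- time modulus of `u_t` -/
theorem dt_modulus {A : ℝ} (hA : 0 ≤ A) (hG : GB N A)
    (hm : ∀ t > 0, Integrable (fun z : E N => hk t z * ‖z‖) ∧ ∫ z : E N, hk t z * ‖z‖ ≤ A * √t)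
    (hFb : ∀ s, |fp f s| ≤ K) (hFc : ContinuousOn (fp f) (Icc 0 1))
    (hF : ∀ s ∈ Icc (0 : ℝ) 1, HasDerivWithinAt f (fp f s) (Icc 0 1) s)
    (hL : Lip f K) (hS : SolM f U u) {C : ℝ} (hC0 : 0 ≤ C) (hB : ∀ t ≥ 1, ∀ x, |dt u t x| ≤ C) :
    ∃ D, 0 ≤ D ∧ ∀ t ≥ 2, ∀ t' ≥ 2, |t' - t| ≤ 1 → ∀ x, |dt u t' x - dt u t x| ≤ D * √|t' - t| := by
  have hK := hL.K0
  set M := (1 + K) * C with hM
  have hM0 : 0 ≤ M := by positivity
  set L := A * M / √1 + 2 * (A * M) * √1 with hLd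
  have hL0 : 0 ≤ L := by positivity
  have hlip : ∀ t ≥ 2, ∀ x y, |dt u t x - dt u t y| ≤ L * ‖x - y‖ := by
    intro t ht x y
    have h1 := (dh_dt hFb hFc hF hL hS one_pos hB (s := t - 1) (t := t) (by linarith)
      (by linarith)).lip hA hG x y
    rwa [show t - (t - 1) = 1 by ring] at h1
  have key : ∀ t ≥ 2, ∀ t', t < t' → t' - t ≤ 1 → ∀ x, |dt u t' x - dt u t x| ≤
      (L * A + M) * √(t' - t) := by
    intro t ht t' htt h1 x
    have hδ : 0 < t' - t := by linarith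
    have h2 := (dh_dt hFb hFc hF hL hS one_pos hB (s := t) (t := t') (by linarith) htt).time_le
      hL0 (hm _ hδ).1 (hm _ hδ).2 (hlip t ht) x
    have h3 : t' - t ≤ √(t' - t) := by
      apply Real.le_sqrt_of_sq_le
      nlinarith
    have h4 : M * (t' - t) ≤ M * √(t' - t) := mul_le_mul_of_nonneg_left h3 hM0
    linarith
  refine ⟨L * A + M, by positivity, fun t ht t' ht' h1 x => ?_⟩
  rcases lt_trichotomy t t' with h | h | h
  · rw [abs_of_pos (by linarith : 0 < t' - t)] at h1 ⊢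
    exact key t ht t' h h1 x
  · subst h; simp
  · rw [abs_sub_comm] at h1
    rw [abs_sub_comm, abs_sub_comm t' t]
    rw [abs_of_pos (by linarith : 0 < t - t')] at h1 ⊢
    exact key t' ht' t h h1 x

theorem conv (h1 : T_FPC) (h2 : T_GRAD) : T_CONV := by
  intro N f K U u tn xn w hR hL hS htn hE hlim
  obtain ⟨hFb, hFc, hFm, hF⟩ := h1 f K hR hL
  obtain ⟨A, hA1, hG, hm⟩ := h2 N
  have hA : 0 ≤ A := by linarith
  obtain ⟨C, hC0, hClip, hC⟩ := bounds hA hG hFb hFc hF hL hS one_pos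
  obtain ⟨D, hD0, hD⟩ := dt_modulus hA hG hm hFb hFc hF hL hS hC0 fun t ht x => (hC t ht x).2.1
  have H : Cv A C D f K U u tn xn w := ⟨hA, hG, hFb, hFc, hFm, hF, hL, hS, htn, hE, hlim, hC0, hD0,
    hClip, hC, hD⟩
  have hK := hL.K0
  refine ⟨H.c2w, H.hasDerivAt_w, fun R hR => H.unif_fderiv hR, fun R hR => H.unif_dt hR,
    ⟨hK, fun t x => hFb _, hFm.comp hE.continuous.measurable⟩, fun a b hab => ⟨fun h => ?_, ?_⟩⟩
  · refine ⟨⟨C * ‖h‖, fun t _ x => ?_⟩, ((H.cont_dxw h).comp (by fun_prop :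
      Continuous fun x : E N => (a, x))).measurable, (H.cont_dxw h).continuousOn, ?_⟩
    · refine le_of_tendsto (H.tendsto_dx h t x).abs ?_
      filter_upwards [H.ev 1 t] with n hn
      unfold dx
      rw [← Real.norm_eq_abs]
      exact ((fderiv ℝ (u (tn n + t)) (xn n + x)).le_opNorm h).trans
        (mul_le_mul_of_nonneg_right (hC _ hn _).1 (norm_nonneg _))
    · intro s t _ hst _ x
      exact (H.dh_dxw h hst).duh x
  · refine ⟨⟨C, fun t _ x => ?_⟩, (H.cont_dtw.comp (by fun_prop :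
      Continuous fun x : E N => (a, x))).measurable, H.cont_dtw.continuousOn, ?_⟩
    · rw [H.dtw]
      refine le_of_tendsto (H.tendsto_dt t x).abs ?_
      filter_upwards [H.ev 1 t] with n hn
      exact (hC _ hn _).2.1
    · intro s t _ hst _ x
      exact (H.dh_dtw hst).duh x

end Pool.Agent.H76.RF
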