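import Pool.Agent.H76.RF.CONV
import Pool.Agent.H90.RD.Line

/-!
# Small time behaviour of the heat semigroup (for MRG)
-/

open MeasureTheory Set Filter Topology Metric
open Pool.Agent.H29.TF
open Pool.Agent.H91.RD Pool.Agent.H91.RF

namespace Pool.Agent.H76.RF

variable {N : ℕ}

/-! ### scaling and moments -/

theorem hk_scale {τ : ℝ} (hτ : 0 < τ) (y : E N) :
    |((√τ) ^ Module.finrank ℝ (E N))⁻¹| * hk 1 ((√τ)⁻¹ • y) = hk τ y := by
  have h1 : 0 < √τ := Real.sqrt_pos.2 hτ
  unfold hk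
  rw [norm_smul, norm_inv, Real.norm_of_nonneg h1.le, abs_of_pos (by positivity)]
  have h2 : (4 * Real.pi * τ) ^ (-(Module.finrank ℝ (E N) : ℝ) / 2) =
      (4 * Real.pi * 1) ^ (-(Module.finrank ℝ (E N) : ℝ) / 2) *
        ((√τ) ^ Module.finrank ℝ (E N))⁻¹ := by
    rw [mul_one, Real.mul_rpow (by positivity) hτ.le]
    congr 1
    rw [neg_div, Real.rpow_neg hτ.le, Real.sqrt_eq_rpow, ← Real.rpow_natCast, ← Real.rpow_mul hτ.le]
    congr 2
    ring
  rw [h2]
  have h3 : -((√τ)⁻¹ * ‖y‖) ^ 2 / (4 * 1) = -‖y‖ ^ 2 / (4 * τ) := by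
    rw [mul_pow, inv_pow, Real.sq_sqrt hτ.le]
    field_simp
  rw [h3]
  ring

theorem integral_hk_scale {τ : ℝ} (hτ : 0 < τ) (G : E N → ℝ) :
    ∫ y, hk τ y * G y = ∫ ζ, hk 1 ζ * G (√τ • ζ) := by
  have h1 : 0 < √τ := Real.sqrt_pos.2 hτ
  have h2 := Measure.integral_comp_smul (volume : Measure (E N))
    (fun y => hk 1 ((√τ)⁻¹ • y) * G y) (√τ)
  have h3 : ∀ ζ : E N, (√τ)⁻¹ • √τ • ζ = ζ := fun ζ => by
    rw [smul_smul, inv_mul_cancel₀ h1.ne', one_smul]
  simp only [h3] at h2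
  rw [h2, smul_eq_mul, ← integral_const_mul]
  congr 1
  ext y
  rw [← mul_assoc, hk_scale hτ]

theorem sq_hk_le : ∃ C : ℝ, 0 ≤ C ∧ ∀ z : E N, (1 + ‖z‖) * ((1 + ‖z‖) * hk 1 z) ≤ C * hk 4 z := by
  refine ⟨(2 * (1 + 4 * 1) * 2 ^ ((Module.finrank ℝ (E N) : ℝ) / 2)) *
    (2 * (1 + 4 * 2) * 2 ^ ((Module.finrank ℝ (E N) : ℝ) / 2)), by positivity, fun z => ?_⟩
  have h1 := norm_mul_hk_le one_pos z
  have h2 := norm_mul_hk_le two_pos z
  rw [show (2 : ℝ) * 2 = 4 by norm_num] at h2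
  rw [mul_one] at h1 ⊢
  rw [show (2 : ℝ) * 1 = 2 by norm_num] at h1
  calc (1 + ‖z‖) * ((1 + ‖z‖) * hk 1 z) ≤ (1 + ‖z‖) *
      (2 * (1 + 4) * 2 ^ ((Module.finrank ℝ (E N) : ℝ) / 2) * hk 2 z) :=
        mul_le_mul_of_nonneg_left h1 (by positivity)
    _ = (2 * (1 + 4) * 2 ^ ((Module.finrank ℝ (E N) : ℝ) / 2)) * ((1 + ‖z‖) * hk 2 z) := by ring
    _ ≤ (2 * (1 + 4) * 2 ^ ((Module.finrank ℝ (E N) : ℝ) / 2)) *
      (2 * (1 + 4 * 2) * 2 ^ ((Module.finrank ℝ (E N) : ℝ) / 2) * hk 4 z) :=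
        mul_le_mul_of_nonneg_left h2 (by positivity)
    _ = _ := by ring

theorem integrable_sq_hk : Integrable (fun z : E N => (1 + ‖z‖) * ((1 + ‖z‖) * hk 1 z)) := by
  obtain ⟨C, hC, h⟩ := sq_hk_le (N := N)
  refine ((integrable_hk (V := E N) (t := 4) (by norm_num)).const_mul C).mono'
    (Continuous.aestronglyMeasurable (by fun_prop)) (Eventually.of_forall fun z => ?_)
  rw [Real.norm_of_nonneg (mul_nonneg (by positivity) (mul_nonneg (by positivity)
    (hk_nonneg zero_le_one _)))]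
  exact h z

theorem integrable_of_sq {G : E N → ℝ} {C : ℝ} (hG : Continuous G)
    (h : ∀ z, |G z| ≤ C * ((1 + ‖z‖) * (1 + ‖z‖))) : Integrable (fun z : E N => hk 1 z * G z) := by
  refine (integrable_sq_hk.const_mul C).mono' (Continuous.aestronglyMeasurable (by fun_prop))
    (Eventually.of_forall fun z => ?_)
  rw [norm_mul, Real.norm_of_nonneg (hk_nonneg zero_le_one _), Real.norm_eq_abs]
  calc hk 1 z * |G z| ≤ hk 1 z * (C * ((1 + ‖z‖) * (1 + ‖z‖))) :=
        mul_le_mul_of_nonneg_left (h z) (hk_nonneg zero_le_one _)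
    _ = _ := by ring

/-- second moments -/
theorem moment2 (a b : E N) :
    ∫ ζ : E N, hk 1 ζ * (inner ℝ ζ a * inner ℝ ζ b) = 2 * inner ℝ a b := by
  have hf : ∀ x : E N, HasFDerivAt (fun z : E N => inner ℝ z a) (innerSL ℝ a : E N →L[ℝ] ℝ) x := by
    intro x
    have h1 := (innerSL ℝ a : E N →L[ℝ] ℝ).hasFDerivAt (x := x)
    refine h1.congr_of_eventuallyEq (Eventually.of_forall fun z => ?_)
    simp [real_inner_comm]
  have hg := fun x : E N => hasFDerivAt_hk (V := E N) one_pos x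
  have hfd : ∀ x, fderiv ℝ (fun z : E N => inner ℝ z a) x b = inner ℝ a b := fun x => by
    rw [(hf x).fderiv]; simp
  have hgd : ∀ x, fderiv ℝ (fun z : E N => hk 1 z) x b = -(1 / 2) * hk 1 x * inner ℝ x b :=
    fun x => by
      rw [(hg x).fderiv]
      simp
  have hin : ∀ (z v : E N), |inner ℝ z v| ≤ (1 + ‖z‖) * ‖v‖ := fun z v =>
    (abs_real_inner_le_norm z v).trans (mul_le_mul_of_nonneg_right (by linarith [norm_nonneg z])
      (norm_nonneg _))
  have h1 := integral_mul_fderiv_eq_neg_fderiv_mul_of_integrable (μ := (volume : Measure (E N)))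
    (f := fun z : E N => inner ℝ z a) (g := fun z : E N => hk 1 z) (v := b)
    (by
      simp only [hfd]
      exact (integrable_hk one_pos).const_mul _)
    (by
      simp only [hgd]
      have := integrable_of_sq (N := N) (G := fun x => -(1 / 2) * (inner ℝ x a * inner ℝ x b))
        (C := ‖a‖ * ‖b‖) (by fun_prop) (fun z => by
          rw [abs_mul, abs_mul]
          have h1 := hin z a
          have h2 := hin z b
          have h3 := mul_le_mul h1 h2 (abs_nonneg _) (by positivity)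
          rw [abs_neg, abs_of_pos (by norm_num : (0 : ℝ) < 1 / 2)]
          nlinarith [norm_nonneg a, norm_nonneg b, norm_nonneg z,
            mul_nonneg (abs_nonneg (inner ℝ z a)) (abs_nonneg (inner ℝ z b))])
      refine this.congr (Eventually.of_forall fun x => ?_)
      simp only
      ring)
    (by
      have := integrable_of_sq (N := N) (G := fun x => inner ℝ x a) (C := ‖a‖) (by fun_prop)
        (fun z => by
          have h1 := hin z a
          nlinarith [norm_nonneg a, norm_nonneg z, mul_nonneg (norm_nonneg a) (norm_nonneg z)])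
      refine this.congr (Eventually.of_forall fun x => ?_)
      simp only
      ring)
    (fun x _ => (hf x).differentiableAt) (fun x _ => (hg x).differentiableAt)
  simp only [hfd, hgd] at h1
  rw [integral_const_mul, integral_hk one_pos, mul_one] at h1
  have h2 : ∫ x : E N, inner ℝ x a * (-(1 / 2) * hk 1 x * inner ℝ x b) =
      -(1 / 2) * ∫ ζ : E N, hk 1 ζ * (inner ℝ ζ a * inner ℝ ζ b) := by
    rw [← integral_const_mul]
    congr 1
    ext x
    ring
  rw [h2] at h1
  linarith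

theorem integrable_moment2 (a b : E N) :
    Integrable (fun ζ : E N => hk 1 ζ * (inner ℝ ζ a * inner ℝ ζ b)) := by
  refine integrable_of_sq (C := ‖a‖ * ‖b‖) (by fun_prop) fun z => ?_
  have h1 : |inner ℝ z a| ≤ (1 + ‖z‖) * ‖a‖ := (abs_real_inner_le_norm z a).trans
    (mul_le_mul_of_nonneg_right (by linarith [norm_nonneg z]) (norm_nonneg _))
  have h2 : |inner ℝ z b| ≤ (1 + ‖z‖) * ‖b‖ := (abs_real_inner_le_norm z b).trans
    (mul_le_mul_of_nonneg_right (by linarith [norm_nonneg z]) (norm_nonneg _))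
  rw [abs_mul]
  have h3 := mul_le_mul h1 h2 (abs_nonneg _) (by positivity)
  linarith

/-- trace of a bilinear form -/
theorem moment_form (B : E N →L[ℝ] E N →L[ℝ] ℝ) :
    ∫ ζ : E N, hk 1 ζ * B ζ ζ = 2 * ∑ i, B (EuclideanSpace.basisFun (Fin N) ℝ i)
      (EuclideanSpace.basisFun (Fin N) ℝ i) := by
  set e := EuclideanSpace.basisFun (Fin N) ℝ with he
  have h1 : ∀ ζ : E N, hk 1 ζ * B ζ ζ =
      ∑ i, ∑ j, B (e i) (e j) * (hk 1 ζ * (inner ℝ ζ (e i) * inner ℝ ζ (e j))) := by
    intro ζ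
    have h3 : (∑ i, inner ℝ (e i) ζ • e i) = ζ := e.sum_repr' ζ
    have h4 : B ζ ζ = ∑ i, ∑ j, inner ℝ (e i) ζ * (inner ℝ (e j) ζ * B (e i) (e j)) := by
      calc B ζ ζ = B (∑ i, inner ℝ (e i) ζ • e i) ζ := by rw [h3]
        _ = ∑ i, inner ℝ (e i) ζ * B (e i) ζ := by
            rw [map_sum B, ContinuousLinearMap.sum_apply]
            refine Finset.sum_congr rfl fun i _ => ?_
            rw [map_smul, ContinuousLinearMap.smul_apply, smul_eq_mul]
        _ = ∑ i, ∑ j, inner ℝ (e i) ζ * (inner ℝ (e j) ζ * B (e i) (e j)) := by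
            refine Finset.sum_congr rfl fun i _ => ?_
            rw [← Finset.mul_sum]
            congr 1
            conv_lhs => rw [← h3]
            rw [map_sum]
            refine Finset.sum_congr rfl fun j _ => ?_
            rw [map_smul, smul_eq_mul]
    rw [h4, Finset.mul_sum]
    refine Finset.sum_congr rfl fun i _ => ?_
    rw [Finset.mul_sum]
    refine Finset.sum_congr rfl fun j _ => ?_
    rw [real_inner_comm ζ (e i), real_inner_comm ζ (e j)]
    ring
  simp only [h1]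
  rw [integral_finsetSum _ fun i _ => integrable_finsetSum _ fun j _ =>
    (integrable_moment2 (e i) (e j)).const_mul _, Finset.mul_sum]
  refine Finset.sum_congr rfl fun i _ => ?_
  rw [integral_finsetSum _ fun j _ => (integrable_moment2 (e i) (e j)).const_mul _]
  have h4 : ∀ j, ∫ ζ : E N, B (e i) (e j) * (hk 1 ζ * (inner ℝ ζ (e i) * inner ℝ ζ (e j))) =
      if i = j then 2 * B (e i) (e i) else 0 := by
    intro j
    rw [integral_const_mul, moment2]
    split_ifs with hij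
    · rw [← hij, real_inner_self_eq_norm_sq, e.norm_eq_one]
      ring
    · rw [e.inner_eq_zero hij]
      ring
  simp only [h4]
  rw [Finset.sum_ite_eq]
  simp

/-! ### second order Taylor expansion along a line -/

theorem taylor2 {φ φ' : ℝ → ℝ} {c : ℝ} (h1 : ∀ r, HasDerivAt φ (φ' r) r)
    (h2 : HasDerivAt φ' c 0) :
    Tendsto (fun r => (φ r - φ 0 - r * φ' 0) / r ^ 2) (𝓝[>] 0) (𝓝 (c / 2)) := by
  refine HasDerivAt.lhopital_zero_nhdsGT (f' := fun r => φ' r - φ' 0) (g' := fun r => 2 * r)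
    (Eventually.of_forall fun r => ?_) (Eventually.of_forall fun r => ?_) ?_ ?_ ?_ ?_
  · have : HasDerivAt (fun r => φ r - φ 0 - r * φ' 0) (φ' r - 1 * φ' 0) r :=
      ((h1 r).sub_const (φ 0)).sub ((hasDerivAt_id' r).mul_const (φ' 0))
    rwa [one_mul] at this
  · have := hasDerivAt_pow 2 r
    simpa using this
  · filter_upwards [self_mem_nhdsWithin] with r hr
    have : (0 : ℝ) < r := hr
    positivity
  · have h3 : ContinuousAt (fun r => φ r - φ 0 - r * φ' 0) 0 :=
      ((h1 0).continuousAt.sub continuousAt_const).sub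
        (continuousAt_id.mul continuousAt_const)
    have h4 := h3.tendsto
    simp only [sub_self, zero_mul] at h4
    exact h4.mono_left nhdsWithin_le_nhds
  · have h3 : ContinuousAt (fun r : ℝ => r ^ 2) 0 := by fun_prop
    have h4 := h3.tendsto
    simp only [ne_eq, OfNat.ofNat_ne_zero, not_false_eq_true, zero_pow] at h4
    exact h4.mono_left nhdsWithin_le_nhds
  · have h3 := (hasDerivAt_iff_tendsto_slope.1 h2).mono_left
      (nhdsWithin_mono 0 (fun r (hr : (0 : ℝ) < r) => hr.ne'))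
    have h4 := h3.div_const 2
    refine h4.congr' ?_
    filter_upwards [self_mem_nhdsWithin] with r hr
    have : (0 : ℝ) < r := hr
    rw [slope_def_field, sub_zero]
    field_simp

/-- generator of the heat semigroup -/
theorem tendsto_gen {g : E N → ℝ} {C M : ℝ} (hg : ContDiff ℝ 2 g) (hM : ∀ x, |g x| ≤ M)
    (hC0 : 0 ≤ C) (hC : ∀ x y, ‖fderiv ℝ g x - fderiv ℝ g y‖ ≤ C * ‖x - y‖) (x : E N) :
    Tendsto (fun τ => (P τ g x - g x) / τ) (𝓝[>] 0) (𝓝 (Laplacian.laplacian g x)) := by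
  have hgd : Differentiable ℝ g := hg.differentiable (by norm_num)
  have hgc : Continuous g := hg.continuous
  set B := fderiv ℝ (fderiv ℝ g) x with hB
  have hlim : Laplacian.laplacian g x = ∫ ζ : E N, hk 1 ζ * (B ζ ζ / 2) := by
    have h1 : ∫ ζ : E N, hk 1 ζ * (B ζ ζ / 2) = (∫ ζ : E N, hk 1 ζ * B ζ ζ) / 2 := by
      rw [← integral_div]
      congr 1
      ext ζ
      ring
    rw [h1, moment_form, Pool.Agent.H90.RD.lap_eq_sum]
    ring
  rw [hlim]
  have hodd : ∫ ζ : E N, hk 1 ζ * fderiv ℝ g x ζ = 0 := by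
    have h1 := integral_neg_eq_self (fun ζ : E N => hk 1 ζ * fderiv ℝ g x ζ) volume
    have h2 : ∫ ζ : E N, hk 1 (-ζ) * fderiv ℝ g x (-ζ) =
        - ∫ ζ : E N, hk 1 ζ * fderiv ℝ g x ζ := by
      rw [← integral_neg]
      congr 1
      ext ζ
      rw [hk_neg, map_neg]
      ring
    rw [h2] at h1
    linarith
  have key : ∀ τ > 0, (P τ g x - g x) / τ = ∫ ζ : E N, hk 1 ζ *
      ((g (x + √τ • -ζ) - g x - √τ * fderiv ℝ g x (-ζ)) / τ) := by
    intro τ hτ
    have i1 : Integrable (fun ζ : E N => hk 1 ζ * g (x + √τ • -ζ)) :=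
      (integrable_hk one_pos).mul_bdd (c := M) (Continuous.aestronglyMeasurable (by fun_prop))
        (Filter.Eventually.of_forall fun z => hM _)
    have i2 : Integrable (fun ζ : E N => hk 1 ζ * g x) := (integrable_hk one_pos).mul_const _
    have i3 : Integrable (fun ζ : E N => hk 1 ζ * fderiv ℝ g x ζ) := by
      refine integrable_of_sq (C := ‖fderiv ℝ g x‖) (by fun_prop) fun z => ?_
      have h1 := (fderiv ℝ g x).le_opNorm z
      rw [Real.norm_eq_abs] at h1
      nlinarith [norm_nonneg z, norm_nonneg (fderiv ℝ g x),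
        mul_nonneg (norm_nonneg (fderiv ℝ g x)) (norm_nonneg z)]
    have e1 : P τ g x = ∫ ζ : E N, hk 1 ζ * g (x + √τ • -ζ) := by
      rw [P_eq_conv, integral_hk_scale hτ (fun y => g (x - y))]
      congr 1
      ext ζ
      rw [smul_neg, sub_eq_add_neg]
    have e2 : ∫ ζ : E N, hk 1 ζ * g x = g x := by
      rw [integral_mul_const, integral_hk one_pos, one_mul]
    have e3 : (fun ζ : E N => hk 1 ζ *
        ((g (x + √τ • -ζ) - g x - √τ * fderiv ℝ g x (-ζ)) / τ)) =
        fun ζ => (hk 1 ζ * g (x + √τ • -ζ) - hk 1 ζ * g x +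
          √τ * (hk 1 ζ * fderiv ℝ g x ζ)) / τ := by
      ext ζ
      rw [map_neg]
      ring
    rw [e3, integral_div, integral_add (f := fun ζ : E N => hk 1 ζ * g (x + √τ • -ζ) - hk 1 ζ * g x)
      (i1.sub i2) (i3.const_mul _), integral_sub i1 i2,
      integral_const_mul, hodd, e2, ← e1]
    ring
  have hT : Tendsto (fun τ => ∫ ζ : E N, hk 1 ζ *
      ((g (x + √τ • -ζ) - g x - √τ * fderiv ℝ g x (-ζ)) / τ)) (𝓝[>] 0)
      (𝓝 (∫ ζ : E N, hk 1 ζ * (B ζ ζ / 2))) := by
    refine tendsto_integral_filter_of_dominated_convergence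
      (fun ζ => C * ((1 + ‖ζ‖) * ((1 + ‖ζ‖) * hk 1 ζ))) ?_ ?_ (integrable_sq_hk.const_mul C) ?_
    · exact Eventually.of_forall fun τ => Continuous.aestronglyMeasurable (by fun_prop)
    · filter_upwards [self_mem_nhdsWithin] with τ hτ
      have hτ' : (0 : ℝ) < τ := hτ
      have h1 : 0 < √τ := Real.sqrt_pos.2 hτ'
      refine Eventually.of_forall fun ζ => ?_
      have h2 := taylor_space hgd hC hC0 x (√τ • -ζ)
      rw [map_smul, smul_eq_mul, norm_smul, norm_neg, Real.norm_of_nonneg h1.le] at h2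
      have h3 : C * (√τ * ‖ζ‖) * (√τ * ‖ζ‖) = C * (‖ζ‖ * ‖ζ‖) * τ := by
        have : C * (√τ * ‖ζ‖) * (√τ * ‖ζ‖) = C * (‖ζ‖ * ‖ζ‖) * (√τ * √τ) := by ring
        rw [this, Real.mul_self_sqrt hτ'.le]
      rw [h3] at h2
      rw [norm_mul, Real.norm_of_nonneg (hk_nonneg zero_le_one _), Real.norm_eq_abs, abs_div,
        abs_of_pos hτ']
      have h4 : |g (x + √τ • -ζ) - g x - √τ * fderiv ℝ g x (-ζ)| / τ ≤ C * (‖ζ‖ * ‖ζ‖) := by
        rw [div_le_iff₀ hτ']
        exact h2
      have h5 := hk_nonneg (V := E N) zero_le_one ζ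
      have h6 : C * (‖ζ‖ * ‖ζ‖) ≤ C * ((1 + ‖ζ‖) * (1 + ‖ζ‖)) := by
        refine mul_le_mul_of_nonneg_left ?_ hC0
        nlinarith [norm_nonneg ζ]
      calc hk 1 ζ * (|g (x + √τ • -ζ) - g x - √τ * fderiv ℝ g x (-ζ)| / τ) ≤
          hk 1 ζ * (C * ((1 + ‖ζ‖) * (1 + ‖ζ‖))) :=
            mul_le_mul_of_nonneg_left (h4.trans h6) h5
        _ = _ := by ring
    · refine Eventually.of_forall fun ζ => Tendsto.const_mul _ ?_
      have h1 : ∀ r, HasDerivAt (fun r : ℝ => g (x + r • -ζ)) (fderiv ℝ g (x + r • -ζ) (-ζ)) r :=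
        fun r => Pool.Agent.H90.RD.hasDerivAt_line1 (hgd _)
      have h2 := Pool.Agent.H90.RD.hasDerivAt_line2 (x := x) hg.contDiffAt (-ζ)
      have h3 := taylor2 h1 h2
      have h4 : Tendsto (fun τ : ℝ => √τ) (𝓝[>] 0) (𝓝[>] 0) := by
        apply tendsto_nhdsWithin_of_tendsto_nhds_of_eventually_within
        · have : ContinuousAt (fun τ : ℝ => √τ) 0 := by fun_prop
          have h5 := this.tendsto
          rw [Real.sqrt_zero] at h5
          exact h5.mono_left nhdsWithin_le_nhds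
        · filter_upwards [self_mem_nhdsWithin] with τ hτ
          exact Real.sqrt_pos.2 hτ
      have h5 := h3.comp h4
      have e : fderiv ℝ (fderiv ℝ g) x (-ζ) (-ζ) / 2 = B ζ ζ / 2 := by
        rw [map_neg, map_neg, ContinuousLinearMap.neg_apply, neg_neg]
      rw [e] at h5
      refine h5.congr' ?_
      filter_upwards [self_mem_nhdsWithin] with τ hτ
      have hτ' : (0 : ℝ) < τ := hτ
      simp only [Function.comp, zero_smul, add_zero, Real.sq_sqrt hτ'.le]
  refine hT.congr' ?_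
  filter_upwards [self_mem_nhdsWithin] with τ hτ
  exact (key τ hτ).symm

end Pool.Agent.H76.RF
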