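import Pool.Agent.H76.RF.CONV

/-!
# Initial behaviour of the heat semigroup: uniform and `L¹_loc` (for MRG)
-/

open MeasureTheory Set Filter Topology Metric
open Pool.Agent.H29.TF
open Pool.Agent.H91.RD Pool.Agent.H91.RF

namespace Pool.Agent.H76.RF

variable {N : ℕ}

/-- the first moment bound, extracted from `T_GRAD` -/
def FM (N : ℕ) (A : ℝ) : Prop :=
  ∀ t > 0, Integrable (fun z : E N => hk t z * ‖z‖) ∧ ∫ z : E N, hk t z * ‖z‖ ≤ A * √t

theorem P_near {A : ℝ} (hA : FM N A) {H : E N → ℝ} {M ε δ : ℝ} (hH : AEStronglyMeasurable H volume)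
    (hM : ∀ x, |H x| ≤ M) (hε : 0 ≤ ε) (hδ : 0 < δ) (huc : ∀ x y, ‖x - y‖ ≤ δ → |H x - H y| ≤ ε)
    {τ : ℝ} (hτ : 0 < τ) (x : E N) : |P τ H x - H x| ≤ ε + 2 * M / δ * (A * √τ) := by
  have hM0 : 0 ≤ M := (abs_nonneg _).trans (hM 0)
  obtain ⟨h1, h2⟩ := hA τ hτ
  have i1 := integrable_hk_mul hτ hH hM x
  have i2 : Integrable (fun y : E N => hk τ (x - y) * H x) := (integrable_hk_sub hτ x).mul_const _
  have e1 : P τ H x - H x = ∫ y, (hk τ (x - y) * H y - hk τ (x - y) * H x) := by
    rw [integral_sub i1 i2, integral_mul_const, integral_hk_sub hτ, one_mul]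
    rfl
  have h3 : Integrable (fun y : E N => hk τ (x - y) * ‖x - y‖) := h1.comp_sub_left x
  have h4 : ∫ y : E N, hk τ (x - y) * ‖x - y‖ = ∫ z : E N, hk τ z * ‖z‖ :=
    integral_sub_left_eq_self (fun z : E N => hk τ z * ‖z‖) volume x
  rw [e1, ← Real.norm_eq_abs]
  have i4 : Integrable (fun y : E N => hk τ (x - y) * ε) := (integrable_hk_sub hτ x).mul_const _
  have i5 : Integrable (fun y : E N => hk τ (x - y) * ε +
      2 * M / δ * (hk τ (x - y) * ‖x - y‖)) := i4.add (h3.const_mul _)
  calc ‖∫ y, (hk τ (x - y) * H y - hk τ (x - y) * H x)‖ ≤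
      ∫ y, (hk τ (x - y) * ε + 2 * M / δ * (hk τ (x - y) * ‖x - y‖)) := by
        apply norm_integral_le_of_norm_le i5
        refine Eventually.of_forall fun y => ?_
        have h5 := hk_nonneg (V := E N) hτ.le (x - y)
        rw [← mul_sub, norm_mul, Real.norm_of_nonneg h5, Real.norm_eq_abs]
        have h6 : |H y - H x| ≤ ε + 2 * M / δ * ‖x - y‖ := by
          by_cases hxy : ‖x - y‖ ≤ δ
          · rw [abs_sub_comm]
            have := huc x y hxy
            have h7 : 0 ≤ 2 * M / δ * ‖x - y‖ := by positivity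
            linarith
          · push Not at hxy
            have h7 : |H y - H x| ≤ 2 * M := (abs_sub _ _).trans (by linarith [hM x, hM y])
            have h8 : 2 * M ≤ 2 * M / δ * ‖x - y‖ := by
              rw [div_mul_eq_mul_div, le_div_iff₀ hδ]
              exact mul_le_mul_of_nonneg_left hxy.le (by positivity)
            linarith
        calc hk τ (x - y) * |H y - H x| ≤ hk τ (x - y) * (ε + 2 * M / δ * ‖x - y‖) :=
              mul_le_mul_of_nonneg_left h6 h5
          _ = _ := by ring
    _ = ε + 2 * M / δ * ∫ z : E N, hk τ z * ‖z‖ := by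
        rw [integral_add i4 (h3.const_mul _), integral_mul_const, integral_hk_sub hτ, one_mul,
          integral_const_mul, h4]
    _ ≤ _ := by
        have h9 : 0 ≤ 2 * M / δ := by positivity
        have := mul_le_mul_of_nonneg_left h2 h9
        linarith

theorem tendsto_sqrt_mul (c : ℝ) : Tendsto (fun τ : ℝ => c * √τ) (𝓝[>] 0) (𝓝 0) := by
  have : ContinuousAt (fun τ : ℝ => c * √τ) 0 := by fun_prop
  have h5 := this.tendsto
  simp only [Real.sqrt_zero, mul_zero] at h5
  exact h5.mono_left nhdsWithin_le_nhds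

/-- away from the support -/
theorem P_far {A : ℝ} (hA : FM N A) {H : E N → ℝ} {M R : ℝ} (hH : AEStronglyMeasurable H volume)
    (hM : ∀ x, |H x| ≤ M) (hR : 0 < R) (h0 : ∀ y ∈ ball (0 : E N) (2 * R), H y = 0)
    {τ : ℝ} (hτ : 0 < τ) {x : E N} (hx : x ∈ ball (0 : E N) R) :
    |P τ H x| ≤ M / R * (A * √τ) := by
  have hM0 : 0 ≤ M := (abs_nonneg _).trans (hM 0)
  obtain ⟨h1, h2⟩ := hA τ hτ
  have h3 : Integrable (fun y : E N => hk τ (x - y) * ‖x - y‖) := h1.comp_sub_left x
  have h4 : ∫ y : E N, hk τ (x - y) * ‖x - y‖ = ∫ z : E N, hk τ z * ‖z‖ :=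
    integral_sub_left_eq_self (fun z : E N => hk τ z * ‖z‖) volume x
  rw [← Real.norm_eq_abs]
  calc ‖∫ y, hk τ (x - y) * H y‖ ≤ ∫ y, M / R * (hk τ (x - y) * ‖x - y‖) := by
        apply norm_integral_le_of_norm_le (h3.const_mul _)
        refine Eventually.of_forall fun y => ?_
        have h5 := hk_nonneg (V := E N) hτ.le (x - y)
        rw [norm_mul, Real.norm_of_nonneg h5, Real.norm_eq_abs]
        by_cases hy : y ∈ ball (0 : E N) (2 * R)
        · rw [h0 y hy, abs_zero, mul_zero]
          positivity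
        · rw [mem_ball_zero_iff] at hx hy
          push Not at hy
          have h6 : R ≤ ‖x - y‖ := by
            have := norm_sub_norm_le y x
            rw [norm_sub_rev] at this
            linarith
          have h7 : |H y| ≤ M / R * ‖x - y‖ := by
            refine (hM y).trans ?_
            rw [div_mul_eq_mul_div, le_div_iff₀ hR]
            exact mul_le_mul_of_nonneg_left h6 hM0
          calc hk τ (x - y) * |H y| ≤ hk τ (x - y) * (M / R * ‖x - y‖) :=
                mul_le_mul_of_nonneg_left h7 h5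
            _ = _ := by ring
    _ = M / R * ∫ z : E N, hk τ z * ‖z‖ := by rw [integral_const_mul, h4]
    _ ≤ _ := mul_le_mul_of_nonneg_left h2 (by positivity)

theorem abs_P_le_P (τ : ℝ) (hτ : 0 < τ) (g : E N → ℝ) (x : E N) :
    |P τ g x| ≤ P τ (fun y => |g y|) x := by
  rw [← Real.norm_eq_abs]
  refine (norm_integral_le_integral_norm _).trans (le_of_eq ?_)
  unfold P
  congr 1
  ext y
  rw [norm_mul, Real.norm_of_nonneg (hk_nonneg hτ.le _), Real.norm_eq_abs]

/-- `P τ g → g` in `L¹_loc` for bounded measurable `g` -/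
theorem tendsto_L1 {A : ℝ} (hA : FM N A) {g : E N → ℝ} {M : ℝ} (hg : Measurable g)
    (hM : ∀ x, |g x| ≤ M) {R : ℝ} (hR : 0 < R) :
    Tendsto (fun τ => ∫ x in ball (0 : E N) R, |P τ g x - g x|) (𝓝[>] 0) (𝓝 0) := by
  have hM0 : 0 ≤ M := (abs_nonneg _).trans (hM 0)
  set V : ℝ := volume.real (ball (0 : E N) R) with hV
  have hV0 : 0 ≤ V := measureReal_nonneg
  set G : E N → ℝ := (ball (0 : E N) (2 * R)).indicator g with hGdef
  have hGm : Measurable G := hg.indicator measurableSet_ball
  have hGi : Integrable G := by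
    rw [hGdef, integrable_indicator_iff measurableSet_ball]
    haveI : IsFiniteMeasure ((volume : Measure (E N)).restrict (ball (0 : E N) (2 * R))) :=
      ⟨by rw [Measure.restrict_apply_univ]; exact measure_ball_lt_top⟩
    exact Integrable.of_bound hg.aestronglyMeasurable M (Eventually.of_forall fun x => hM x)
  have hgG : ∀ x, |g x - G x| ≤ M := by
    intro x
    rw [hGdef]
    by_cases hx : x ∈ ball (0 : E N) (2 * R)
    · rw [indicator_of_mem hx, sub_self, abs_zero]; exact hM0
    · rw [indicator_of_notMem hx, sub_zero]; exact hM x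
  have hgG0 : ∀ y ∈ ball (0 : E N) (2 * R), g y - G y = 0 := by
    intro y hy
    rw [hGdef, indicator_of_mem hy, sub_self]
  rw [Metric.tendsto_nhds]
  intro ε hε
  obtain ⟨H, hHc, hHG, hHcont, hHi⟩ := hGi.exists_hasCompactSupport_integral_sub_le
    (show 0 < ε / 8 by positivity)
  obtain ⟨C, hC⟩ := hHc.exists_bound_of_continuous hHcont
  have hC' : ∀ x, |H x| ≤ C := fun x => by rw [← Real.norm_eq_abs]; exact hC x
  have huc : UniformContinuous H := hHcont.uniformContinuous_of_tendsto_cocompact
    hHc.is_zero_at_infty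
  obtain ⟨δ, hδ, hucδ⟩ := Metric.uniformContinuous_iff.1 huc (ε / (8 * (V + 1))) (by positivity)
  have huc' : ∀ x y, ‖x - y‖ ≤ δ / 2 → |H x - H y| ≤ ε / (8 * (V + 1)) := by
    intro x y hxy
    have := hucδ (a := x) (b := y) (by rw [dist_eq_norm]; linarith)
    rw [Real.dist_eq] at this
    exact this.le
  -- pointwise estimate
  set c : ℝ := M / R * A + 2 * C / (δ / 2) * A with hc
  have hpt : ∀ τ > 0, ∀ x ∈ ball (0 : E N) R, |P τ g x - g x| ≤
      (c * √τ + ε / (8 * (V + 1))) + (P τ (fun y => |G y - H y|) x + |G x - H x|) := by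
    intro τ hτ x hx
    have hx2 : x ∈ ball (0 : E N) (2 * R) := ball_subset_ball (by linarith) hx
    have e1 : P τ g x = P τ (fun y => g y - G y) x + P τ (fun y => G y - H y) x + P τ H x := by
      have i1 : Integrable (fun y : E N => hk τ (x - y) * (g y - G y)) :=
        integrable_hk_mul hτ (hg.sub hGm).aestronglyMeasurable hgG x
      have i2 : Integrable (fun y : E N => hk τ (x - y) * (G y - H y)) :=
        integrable_hk_mul' hτ (hGi.sub hHi) x
      have i3 : Integrable (fun y : E N => hk τ (x - y) * H y) :=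
        integrable_hk_mul' hτ hHi x
      have i12 : Integrable (fun y : E N => hk τ (x - y) * (g y - G y) +
          hk τ (x - y) * (G y - H y)) := i1.add i2
      unfold P
      rw [← integral_add i1 i2, ← integral_add i12 i3]
      congr 1
      ext y
      ring
    have h1 := P_far hA (H := fun y => g y - G y) (hg.sub hGm).aestronglyMeasurable hgG hR hgG0 hτ hx
    have h2 := abs_P_le_P τ hτ (fun y => G y - H y) x
    have h3 := P_near hA hHcont.aestronglyMeasurable hC' (by positivity) (by positivity : 0 < δ / 2)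
      huc' hτ x
    have h4 : g x = G x := by
      have := hgG0 x hx2
      linarith
    have e2 : P τ g x - g x = P τ (fun y => g y - G y) x + P τ (fun y => G y - H y) x +
        (P τ H x - H x) - (G x - H x) := by
      rw [e1, h4]; ring
    rw [e2]
    have h5 := abs_sub (P τ (fun y => g y - G y) x + P τ (fun y => G y - H y) x +
        (P τ H x - H x)) (G x - H x)
    have h6 := abs_add_le (P τ (fun y => g y - G y) x + P τ (fun y => G y - H y) x) (P τ H x - H x)
    have h7 := abs_add_le (P τ (fun y => g y - G y) x) (P τ (fun y => G y - H y) x)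
    have h8 : M / R * (A * √τ) + 2 * C / (δ / 2) * (A * √τ) = c * √τ := by rw [hc]; ring
    linarith
  have hGH : Integrable (fun y => |G y - H y|) := (hGi.sub hHi).abs
  have hGHle : ∫ y, |G y - H y| ≤ ε / 8 := by
    simpa [Real.norm_eq_abs] using hHG
  have hmain : ∀ τ > 0, ∫ x in ball (0 : E N) R, |P τ g x - g x| ≤
      (c * √τ + ε / (8 * (V + 1))) * V + (ε / 8 + ε / 8) := by
    intro τ hτ
    have hPi : Integrable (fun x => P τ (fun y => |G y - H y|) x) := integrable_P hτ hGH
    have hbi : IntegrableOn (fun x : E N => (c * √τ + ε / (8 * (V + 1))) +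
        (P τ (fun y => |G y - H y|) x + |G x - H x|)) (ball (0 : E N) R) := by
      apply Integrable.add
      · exact integrableOn_const (measure_ball_lt_top.ne)
      · exact (hPi.add hGH).integrableOn
    have h1 : ∫ x in ball (0 : E N) R, |P τ g x - g x| ≤ ∫ x in ball (0 : E N) R,
        ((c * √τ + ε / (8 * (V + 1))) + (P τ (fun y => |G y - H y|) x + |G x - H x|)) := by
      refine setIntegral_mono_on ?_ hbi measurableSet_ball (hpt τ hτ)
      refine Integrable.mono' hbi ?_ ?_
      · exact (((aesm_P hg.aestronglyMeasurable).sub hg.aestronglyMeasurable).norm).restrict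
      · rw [ae_restrict_iff' measurableSet_ball]
        refine Eventually.of_forall fun x hx => ?_
        rw [Real.norm_of_nonneg (abs_nonneg _)]
        exact hpt τ hτ x hx
    refine h1.trans ?_
    have ic : Integrable (fun _ : E N => c * √τ + ε / (8 * (V + 1)))
        (volume.restrict (ball (0 : E N) R)) := integrableOn_const measure_ball_lt_top.ne
    have iP : Integrable (fun x : E N => P τ (fun y => |G y - H y|) x + |G x - H x|)
        (volume.restrict (ball (0 : E N) R)) := (hPi.add hGH).integrableOn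
    rw [integral_add ic iP, setIntegral_const, smul_eq_mul]
    have h2 : ∫ x in ball (0 : E N) R, (P τ (fun y => |G y - H y|) x + |G x - H x|) ≤
        ∫ x, (P τ (fun y => |G y - H y|) x + |G x - H x|) := by
      refine setIntegral_le_integral (hPi.add hGH) (Eventually.of_forall fun x => ?_)
      exact add_nonneg (P_nonneg hτ.le (fun _ => abs_nonneg _) x) (abs_nonneg _)
    rw [integral_add hPi hGH, integral_P hτ hGH] at h2
    have h3 : volume.real (ball (0 : E N) R) * (c * √τ + ε / (8 * (V + 1))) =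
        (c * √τ + ε / (8 * (V + 1))) * V := by rw [hV]; ring
    rw [h3]
    linarith
  have h1 : ∀ᶠ τ in 𝓝[>] (0 : ℝ), c * V * √τ < ε / 8 :=
    (tendsto_sqrt_mul (c * V)).eventually (gt_mem_nhds (by positivity))
  filter_upwards [h1, self_mem_nhdsWithin] with τ h2 h3
  have h4 := hmain τ h3
  have h5 : ε / (8 * (V + 1)) * V ≤ ε / 8 := by
    rw [div_mul_eq_mul_div, div_le_div_iff₀ (by positivity) (by positivity)]
    nlinarith
  rw [Real.dist_eq, sub_zero, abs_of_nonneg (integral_nonneg fun x => abs_nonneg _)]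
  have h6 : (c * √τ + ε / (8 * (V + 1))) * V = c * V * √τ + ε / (8 * (V + 1)) * V := by ring
  linarith

end Pool.Agent.H76.RF
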