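import Pool.Agent.H76.RF.Lin

/-!
# MP_609556_an, full answer: module LINU (the derivatives solve the linearised equation)
-/

open MeasureTheory Set Filter Topology Metric
open Pool.Agent.H29.TF
open Pool.Agent.H91.RD Pool.Agent.H91.RF

namespace Pool.Agent.H76.RF

variable {N : ℕ} {f : ℝ → ℝ} {K : ℝ} {U : Set (E N)} {u : ℝ → E N → ℝ}

theorem u_mem (hS : SolM f U u) {t : ℝ} (ht : 0 < t) (x : E N) : u t x ∈ Icc (0 : ℝ) 1 :=
  ⟨hS.nonneg ht x, hS.le_one ht x⟩

theorem f_abs_le (hL : Lip f K) {s : ℝ} (hs : s ∈ Icc (0 : ℝ) 1) : |f s| ≤ K := by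
  have h1 := hL.abs_le s
  rw [abs_of_nonneg hs.1] at h1
  nlinarith [hL.K0, hs.2]

theorem cont_u_slice (hS : SolM f U u) {t : ℝ} (ht : 0 < t) : Continuous (u t) :=
  (hS.sol.c2 t ht).continuous

/-- Duhamel data of `u` -/
theorem dh_u (hL : Lip f K) (hS : SolM f U u) {s t : ℝ} (hs : 0 < s) (hst : s < t) :
    Dh (1 + K) u (fun r x => f (u r x)) s t where
  lt := hst
  meas := (cont_u_slice hS hs).measurable
  bz x := by
    have h1 := u_mem hS hs x
    rw [abs_of_nonneg h1.1]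
    linarith [h1.2, hL.K0]
  bS r hr x := by
    have h1 := f_abs_le hL (u_mem hS (by linarith [hr.1] : 0 < r) x)
    linarith
  cS := hL.continuous.comp_continuousOn (hS.sol.cont.mono (prod_mono (fun r hr => by
    have := hr.1
    show 0 < r
    linarith) (subset_refl _)))
  duh x := by
    have h1 := hS.mild.duh s t hs.le hst x
    rw [lift0_pos (hs.trans hst), lift0_pos hs] at h1
    rw [h1]
    congr 1
    refine intervalIntegral.integral_congr fun r hr => ?_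
    rw [uIcc_of_le hst.le] at hr
    simp only
    rw [lift0_pos (by linarith [hr.1])]

/-- Lipschitz bound of `u` for `t ≥ a` -/
theorem u_lip {A : ℝ} (hA : 0 ≤ A) (hG : GB N A) (hL : Lip f K) (hS : SolM f U u) {a : ℝ}
    (ha : 0 < a) : ∃ Λ, 0 ≤ Λ ∧ ∀ t ≥ a, ∀ x y, |u t x - u t y| ≤ Λ * ‖x - y‖ := by
  have hK := hL.K0
  refine ⟨A * (1 + K) / √(a / 2) + 2 * (A * (1 + K)) * √(a / 2), by positivity, ?_⟩
  intro t ht x y
  have h1 := (dh_u hL hS (s := t - a / 2) (t := t) (by linarith) (by linarith)).lip hA hG x y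
  rwa [show t - (t - a / 2) = a / 2 by ring] at h1

theorem chain (hF : ∀ s ∈ Icc (0 : ℝ) 1, HasDerivWithinAt f (fp f s) (Icc 0 1) s) {φ : ℝ → ℝ}
    {d : ℝ} (hφ : HasDerivWithinAt φ d (Ici 0) 0) (hm : MapsTo φ (Ici 0) (Icc 0 1)) :
    HasDerivWithinAt (fun ε => f (φ ε)) (fp f (φ 0) * d) (Ici 0) 0 :=
  (hF (φ 0) (hm (mem_Ici.2 le_rfl))).comp 0 hφ hm

theorem pot_pos {t : ℝ} (ht : 0 < t) (x : E N) : pot f u t x = fp f (u t x) := by
  unfold pot; rw [if_pos ht]

theorem cont_pot (hF : ContinuousOn (fp f) (Icc 0 1)) (hS : SolM f U u) :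
    ContinuousOn (fun p : ℝ × E N => pot f u p.1 p.2) (Ioi 0 ×ˢ univ) := by
  have h1 : ContinuousOn (fun p : ℝ × E N => fp f (u p.1 p.2)) (Ioi 0 ×ˢ univ) :=
    hF.comp hS.sol.cont fun p hp => u_mem hS hp.1 p.2
  refine h1.congr fun p hp => ?_
  exact pot_pos hp.1 p.2

theorem cont_dx (hS : SolM f U u) (h : E N) :
    ContinuousOn (fun p : ℝ × E N => dx u h p.1 p.2) (Ioi 0 ×ˢ univ) := by
  unfold dx
  exact hS.sol.cont_dx.clm_apply continuousOn_const

theorem cont_dt (hS : SolM f U u) :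
    ContinuousOn (fun p : ℝ × E N => dt u p.1 p.2) (Ioi 0 ×ˢ univ) := hS.sol.cont_dt

theorem sub_Ioi {s t : ℝ} (hs : 0 ≤ s) : (Ioo s t ×ˢ (univ : Set (E N))) ⊆ Ioi 0 ×ˢ univ :=
  prod_mono (fun r hr => by
    have := hr.1
    show 0 < r
    linarith) (subset_refl _)

theorem slice_meas {z : ℝ → E N → ℝ}
    (hz : ContinuousOn (fun p : ℝ × E N => z p.1 p.2) (Ioi 0 ×ˢ univ)) {s : ℝ} (hs : 0 < s) :
    Measurable (z s) := (slice hz (mem_Ioi.2 hs)).measurable

theorem dx_le {Λ a : ℝ} (hΛ : 0 ≤ Λ) (hlip : ∀ t ≥ a, ∀ x y, |u t x - u t y| ≤ Λ * ‖x - y‖)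
    {t : ℝ} (ht : a ≤ t) (x : E N) : ‖fderiv ℝ (u t) x‖ ≤ Λ := by
  have h1 : LipschitzWith (Real.toNNReal Λ) (u t) := by
    refine LipschitzWith.of_dist_le_mul fun x y => ?_
    rw [Real.dist_eq, dist_eq_norm, Real.coe_toNNReal _ hΛ]
    exact hlip t ht x y
  have h2 := norm_fderiv_le_of_lipschitz ℝ h1 (x₀ := x)
  rwa [Real.coe_toNNReal _ hΛ] at h2

/-- Duhamel data of `∂_h u` -/
theorem dh_dx (hFb : ∀ s, |fp f s| ≤ K) (hFc : ContinuousOn (fp f) (Icc 0 1))
    (hF : ∀ s ∈ Icc (0 : ℝ) 1, HasDerivWithinAt f (fp f s) (Icc 0 1) s)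
    (hL : Lip f K) (hS : SolM f U u) {a Λ : ℝ} (ha : 0 < a) (hΛ : 0 ≤ Λ)
    (hlip : ∀ t ≥ a, ∀ x y, |u t x - u t y| ≤ Λ * ‖x - y‖) (h : E N) {s t : ℝ} (hs : a ≤ s)
    (hst : s < t) :
    Dh ((1 + K) * (Λ * ‖h‖)) (dx u h) (fun r x => pot f u r x * dx u h r x) s t := by
  have hK := hL.K0
  have hs0 : 0 < s := by linarith
  have hΛh : 0 ≤ Λ * ‖h‖ := by positivity
  -- the difference quotients
  have key : ∀ n : ℕ, Dh ((1 + K) * (Λ * ‖h‖))
      (fun r x => ((n : ℝ) + 1) * (u r ((((n : ℝ) + 1)⁻¹ • h) + x) - u r x))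
      (fun r x => ((n : ℝ) + 1) * (f (u r ((((n : ℝ) + 1)⁻¹ • h) + x)) - f (u r x))) s t := by
    intro n
    have hn : (0 : ℝ) < (n : ℝ) + 1 := by positivity
    have h0 := dh_u hL hS hs0 hst
    have h1 : Dh (1 + K) u (fun r x => f (u r x)) (0 + s) (0 + t) := by
      rw [zero_add, zero_add]; exact h0
    have h2 := (h1.shift 0 (((n : ℝ) + 1)⁻¹ • h)).sub_mul h0 ((n : ℝ) + 1)
    simp only [zero_add] at h2
    have hq : ∀ r ≥ a, ∀ x, |u r ((((n : ℝ) + 1)⁻¹ • h) + x) - u r x| ≤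
        Λ * (((n : ℝ) + 1)⁻¹ * ‖h‖) := by
      intro r hr x
      have h3 := hlip r hr ((((n : ℝ) + 1)⁻¹ • h) + x) x
      rwa [add_sub_cancel_right, norm_smul, Real.norm_of_nonneg (by positivity)] at h3
    refine h2.bound (fun x => ?_) (fun r hr x => ?_)
    · rw [abs_mul, abs_of_pos hn]
      have h3 := mul_le_mul_of_nonneg_left (hq s hs x) hn.le
      have e : ((n : ℝ) + 1) * (Λ * (((n : ℝ) + 1)⁻¹ * ‖h‖)) = Λ * ‖h‖ := by
        field_simp
      rw [e] at h3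
      nlinarith
    · rw [abs_mul, abs_of_pos hn]
      have h3 := mul_le_mul_of_nonneg_left (hq r (by linarith [hr.1]) x) hn.le
      have e : ((n : ℝ) + 1) * (Λ * (((n : ℝ) + 1)⁻¹ * ‖h‖)) = Λ * ‖h‖ := by
        field_simp
      rw [e] at h3
      have h4 := mul_le_mul_of_nonneg_left (hL.lip (u r ((((n : ℝ) + 1)⁻¹ • h) + x)) (u r x)) hn.le
      nlinarith
  have hdq : ∀ r > 0, ∀ y, HasDerivAt (fun ε : ℝ => u r (ε • h + y)) (dx u h r y) 0 := by
    intro r hr y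
    have h1 : DifferentiableAt ℝ (u r) ((0 : ℝ) • h + y) :=
      (hS.sol.c2 r hr).differentiable (by norm_num) _
    have h2 : HasDerivAt (fun ε : ℝ => ε • h + y) h 0 := by
      have := ((hasDerivAt_id (0 : ℝ)).smul_const h).add_const y
      simpa using this
    have h3 := h1.hasFDerivAt.comp_hasDerivAt (0 : ℝ) h2
    have e : fderiv ℝ (u r) ((0 : ℝ) • h + y) h = dx u h r y := by
      unfold dx
      rw [zero_smul, zero_add]
    rw [← e]
    exact h3
  refine Dh.lim (l := atTop) (z := fun (n : ℕ) r x => ((n : ℝ) + 1) * (u r ((((n : ℝ) + 1)⁻¹ • h) + x) -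
    u r x)) (S := fun (n : ℕ) r x => ((n : ℝ) + 1) * (f (u r ((((n : ℝ) + 1)⁻¹ • h) + x)) - f (u r x)))
    hst (Filter.Eventually.of_forall key) (slice_meas (cont_dx hS h) hs0) ?_ ?_ ?_ ?_
  · exact ((cont_pot hFc hS).mul (cont_dx hS h)).mono (sub_Ioi hs0.le)
  · intro y
    have h1 := tendsto_dq (hdq s hs0 y).hasDerivWithinAt
    simpa using h1
  · intro y
    have h1 := tendsto_dq (hdq t (by linarith) y).hasDerivWithinAt
    simpa using h1
  · intro r hr y
    have hr0 : 0 < r := by linarith [hr.1]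
    have h1 := tendsto_dq (chain hF (hdq r hr0 y).hasDerivWithinAt
      (fun ε _ => u_mem hS hr0 (ε • h + y)))
    rw [pot_pos hr0]
    simpa using h1

/-- time increments from a bound of the time derivative -/
theorem dt_incr (hS : SolM f U u) {a B : ℝ} (ha : 0 < a) (hB : ∀ t ≥ a, ∀ x, |dt u t x| ≤ B)
    {t t' : ℝ} (ht : a ≤ t) (ht' : a ≤ t') (x : E N) : |u t' x - u t x| ≤ B * |t' - t| := by
  have h1 := Convex.norm_image_sub_le_of_norm_hasDerivWithin_le (f := fun s => u s x)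
    (f' := fun s => dt u s x) (s := Ici a) (x := t) (y := t') (C := B)
    (fun s hs => ((hS.sol.dt s (by
      have : a ≤ s := hs
      linarith) x).hasDerivAt).hasDerivWithinAt) (fun s hs => by
        rw [Real.norm_eq_abs]; exact hB s hs x) (convex_Ici a) ht ht'
  rwa [Real.norm_eq_abs, Real.norm_eq_abs] at h1

/-- Duhamel data of `u_t` -/
theorem dh_dt (hFb : ∀ s, |fp f s| ≤ K) (hFc : ContinuousOn (fp f) (Icc 0 1))
    (hF : ∀ s ∈ Icc (0 : ℝ) 1, HasDerivWithinAt f (fp f s) (Icc 0 1) s)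
    (hL : Lip f K) (hS : SolM f U u) {a B : ℝ} (ha : 0 < a)
    (hB : ∀ t ≥ a, ∀ x, |dt u t x| ≤ B) {s t : ℝ} (hs : a ≤ s)
    (hst : s < t) :
    Dh ((1 + K) * B) (dt u) (fun r x => pot f u r x * dt u r x) s t := by
  have hK := hL.K0
  have hs0 : 0 < s := by linarith
  have hB0 : 0 ≤ B := (abs_nonneg _).trans (hB a le_rfl 0)
  have key : ∀ n : ℕ, Dh ((1 + K) * B)
      (fun r x => ((n : ℝ) + 1) * (u (((n : ℝ) + 1)⁻¹ + r) x - u r x))
      (fun r x => ((n : ℝ) + 1) * (f (u (((n : ℝ) + 1)⁻¹ + r) x) - f (u r x))) s t := by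
    intro n
    have hn : (0 : ℝ) < (n : ℝ) + 1 := by positivity
    have hn' : (0 : ℝ) < ((n : ℝ) + 1)⁻¹ := by positivity
    have h0 := dh_u hL hS hs0 hst
    have h1 := dh_u hL hS (s := ((n : ℝ) + 1)⁻¹ + s) (t := ((n : ℝ) + 1)⁻¹ + t) (by linarith)
      (by linarith)
    have h2 := (h1.shift (((n : ℝ) + 1)⁻¹) 0).sub_mul h0 ((n : ℝ) + 1)
    simp only [zero_add] at h2
    have hq : ∀ r ≥ a, ∀ x, |u (((n : ℝ) + 1)⁻¹ + r) x - u r x| ≤ B * ((n : ℝ) + 1)⁻¹ := by
      intro r hr x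
      have h3 := dt_incr hS ha hB hr (t' := ((n : ℝ) + 1)⁻¹ + r) (by linarith) x
      rwa [add_sub_cancel_right, abs_of_pos hn'] at h3
    have e : ((n : ℝ) + 1) * (B * ((n : ℝ) + 1)⁻¹) = B := by
      field_simp
    refine h2.bound (fun x => ?_) (fun r hr x => ?_)
    · rw [abs_mul, abs_of_pos hn]
      have h3 := mul_le_mul_of_nonneg_left (hq s hs x) hn.le
      rw [e] at h3
      nlinarith
    · rw [abs_mul, abs_of_pos hn]
      have h3 := mul_le_mul_of_nonneg_left (hq r (by linarith [hr.1]) x) hn.le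
      rw [e] at h3
      have h4 := mul_le_mul_of_nonneg_left (hL.lip (u (((n : ℝ) + 1)⁻¹ + r) x) (u r x)) hn.le
      nlinarith
  have hdq : ∀ r > 0, ∀ y, HasDerivAt (fun ε : ℝ => u (ε + r) y) (dt u r y) 0 := by
    intro r hr y
    have h1 : HasDerivAt (fun s => u s y) (dt u r y) (0 + r) := by
      rw [zero_add]
      exact (hS.sol.dt r hr y).hasDerivAt
    exact h1.comp_add_const 0 r
  refine Dh.lim (l := atTop) (z := fun (n : ℕ) r x => ((n : ℝ) + 1) * (u (((n : ℝ) + 1)⁻¹ + r) x -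
    u r x)) (S := fun (n : ℕ) r x => ((n : ℝ) + 1) * (f (u (((n : ℝ) + 1)⁻¹ + r) x) - f (u r x)))
    hst (Filter.Eventually.of_forall key) (slice_meas (cont_dt hS) hs0) ?_ ?_ ?_ ?_
  · exact ((cont_pot hFc hS).mul (cont_dt hS)).mono (sub_Ioi hs0.le)
  · intro y
    have h1 := tendsto_dq (hdq s hs0 y).hasDerivWithinAt
    simpa using h1
  · intro y
    have h1 := tendsto_dq (hdq t (by linarith) y).hasDerivWithinAt
    simpa using h1
  · intro r hr y
    have hr0 : 0 < r := by linarith [hr.1]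
    have h1 := tendsto_dq (chain hF (hdq r hr0 y).hasDerivWithinAt
      (fun ε hε => u_mem hS (add_pos_of_nonneg_of_pos hε hr0) y))
    rw [pot_pos hr0]
    simpa using h1

/-- the Laplacian is bounded by the Lipschitz constant of the gradient -/
theorem lap_le {g : E N → ℝ} {C : ℝ} (hC0 : 0 ≤ C)
    (hC : ∀ x y, ‖fderiv ℝ g x - fderiv ℝ g y‖ ≤ C * ‖x - y‖) (x : E N) :
    |Laplacian.laplacian g x| ≤ N * C := by
  have h1 : LipschitzWith (Real.toNNReal C) (fderiv ℝ g) := by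
    refine LipschitzWith.of_dist_le_mul fun x y => ?_
    rw [dist_eq_norm, dist_eq_norm, Real.coe_toNNReal _ hC0]
    exact hC x y
  have h2 : ‖fderiv ℝ (fderiv ℝ g) x‖ ≤ C := by
    have := norm_fderiv_le_of_lipschitz ℝ h1 (x₀ := x)
    rwa [Real.coe_toNNReal _ hC0] at this
  rw [InnerProductSpace.laplacian_eq_iteratedFDeriv_stdOrthonormalBasis]
  refine (Finset.abs_sum_le_sum_abs _ _).trans ?_
  have h3 : ∀ i ∈ (Finset.univ : Finset (Fin (Module.finrank ℝ (E N)))),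
      |iteratedFDeriv ℝ 2 g x ![(stdOrthonormalBasis ℝ (E N)) i, (stdOrthonormalBasis ℝ (E N)) i]| ≤
        C := by
    intro i _
    rw [iteratedFDeriv_two_apply]
    simp only [Matrix.cons_val_zero, Matrix.cons_val_one]
    have h4 : ‖(stdOrthonormalBasis ℝ (E N)) i‖ = 1 := (stdOrthonormalBasis ℝ (E N)).norm_eq_one i
    have h5 := ((fderiv ℝ (fderiv ℝ g) x) ((stdOrthonormalBasis ℝ (E N)) i)).le_opNorm
      ((stdOrthonormalBasis ℝ (E N)) i)
    have h6 := (fderiv ℝ (fderiv ℝ g) x).le_opNorm ((stdOrthonormalBasis ℝ (E N)) i)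
    rw [h4, mul_one] at h5 h6
    rw [← Real.norm_eq_abs]
    exact h5.trans (h6.trans h2)
  refine (Finset.sum_le_sum h3).trans (le_of_eq ?_)
  rw [Finset.sum_const, Finset.card_univ, Fintype.card_fin, finrank_euclideanSpace_fin,
    nsmul_eq_mul]

/-- all uniform bounds for `t ≥ a` -/
theorem bounds {A : ℝ} (hA : 0 ≤ A) (hG : GB N A) (hFb : ∀ s, |fp f s| ≤ K)
    (hFc : ContinuousOn (fp f) (Icc 0 1))
    (hF : ∀ s ∈ Icc (0 : ℝ) 1, HasDerivWithinAt f (fp f s) (Icc 0 1) s)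
    (hL : Lip f K) (hS : SolM f U u) {a : ℝ} (ha : 0 < a) :
    ∃ C, 0 ≤ C ∧ (∀ t ≥ a, ∀ x y, |u t x - u t y| ≤ C * ‖x - y‖) ∧
      ∀ t ≥ a, ∀ x, ‖fderiv ℝ (u t) x‖ ≤ C ∧ |dt u t x| ≤ C ∧
        ∀ x', ‖fderiv ℝ (u t) x - fderiv ℝ (u t) x'‖ ≤ C * ‖x - x'‖ := by
  have hK := hL.K0
  obtain ⟨Λ, hΛ, hlip⟩ := u_lip hA hG hL hS (show 0 < a / 2 by positivity)
  set M := (1 + K) * Λ with hM
  have hM0 : 0 ≤ M := by positivity
  set C1 := A * M / √(a / 2) + 2 * (A * M) * √(a / 2) with hC1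
  have hC10 : 0 ≤ C1 := by positivity
  have hgrad : ∀ t ≥ a, ∀ x x', ‖fderiv ℝ (u t) x - fderiv ℝ (u t) x'‖ ≤ C1 * ‖x - x'‖ := by
    intro t ht x x'
    refine ContinuousLinearMap.opNorm_le_bound _ (by positivity) fun h => ?_
    have h1 := (dh_dx hFb hFc hF hL hS (a := a / 2) (by positivity) hΛ hlip h (s := t - a / 2)
      (t := t) (by linarith) (by linarith)).lip hA hG x x'
    rw [show t - (t - a / 2) = a / 2 by ring] at h1
    rw [ContinuousLinearMap.sub_apply, Real.norm_eq_abs]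
    refine h1.trans (le_of_eq ?_)
    rw [hC1, hM]
    ring
  refine ⟨Λ + C1 + (N * C1 + K), by positivity, ?_, ?_⟩
  · intro t ht x y
    refine (hlip t (by linarith) x y).trans (mul_le_mul_of_nonneg_right ?_ (norm_nonneg _))
    have : (0 : ℝ) ≤ N * C1 := by positivity
    linarith
  · intro t ht x
    have h0 : (0 : ℝ) ≤ N * C1 := by positivity
    refine ⟨?_, ?_, ?_⟩
    · have := dx_le hΛ hlip (show a / 2 ≤ t by linarith) x
      linarith
    · have h1 := hS.sol.eqn t (by linarith) x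
      have h2 : |dt u t x| = |Laplacian.laplacian (u t) x + f (u t x)| := by
        unfold dt; rw [h1]
      rw [h2]
      have h3 := lap_le hC10 (hgrad t ht) x
      have h4 := f_abs_le hL (u_mem hS (by linarith : 0 < t) x)
      have h5 := abs_add_le (Laplacian.laplacian (u t) x) (f (u t x))
      linarith
    · intro x'
      refine (hgrad t ht x x').trans (mul_le_mul_of_nonneg_right ?_ (norm_nonneg _))
      linarith

theorem linu (h1 : T_FPC) (h2 : T_GRAD) : T_LINU := by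
  intro N f K U u hR hL hS
  obtain ⟨hFb, hFc, hFm, hF⟩ := h1 f K hR hL
  obtain ⟨A, hA1, hG, -⟩ := h2 N
  have hA : 0 ≤ A := by linarith
  have hK := hL.K0
  refine ⟨⟨hK, ?_, ?_⟩, cont_pot hFc hS, ?_, ?_⟩
  · intro t x
    unfold pot
    split_ifs
    · exact hFb _
    · simpa using hK.le
  · classical
    have h3 := (cont_pot (u := u) hFc hS).measurable_piecewise (g := fun _ => (0 : ℝ))
      continuousOn_const (measurableSet_Ioi.prod MeasurableSet.univ)
    have e : (fun p : ℝ × E N => pot f u p.1 p.2) =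
        (Ioi 0 ×ˢ (univ : Set (E N))).piecewise (fun p : ℝ × E N => pot f u p.1 p.2)
          (fun _ => 0) := by
      ext p
      by_cases hp : p ∈ Ioi 0 ×ˢ (univ : Set (E N))
      · rw [piecewise_eq_of_mem _ _ _ hp]
      · rw [piecewise_eq_of_notMem _ _ _ hp]
        unfold pot
        rw [if_neg]
        exact fun h => hp ⟨h, mem_univ _⟩
    rw [e]
    exact h3
  · intro a b ha hab
    obtain ⟨C, hC0, hClip, hC⟩ := bounds hA hG hFb hFc hF hL hS ha
    refine ⟨fun h => ⟨⟨C * ‖h‖, fun t ht x => ?_⟩, slice_meas (cont_dx hS h) ha, ?_, ?_⟩,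
      ⟨⟨C, fun t ht x => (hC t ht.1 x).2.1⟩, slice_meas (cont_dt hS) ha, ?_, ?_⟩⟩
    · unfold dx
      rw [← Real.norm_eq_abs]
      exact ((fderiv ℝ (u t) x).le_opNorm h).trans
        (mul_le_mul_of_nonneg_right (hC t ht.1 x).1 (norm_nonneg _))
    · exact (cont_dx hS h).mono (prod_mono (fun r hr => by
        have := hr.1
        show 0 < r
        linarith) (subset_refl _))
    · intro s t hs hst _ x
      exact (dh_dx hFb hFc hF hL hS ha hC0 hClip h hs hst).duh x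
    · exact (cont_dt hS).mono (prod_mono (fun r hr => by
        have := hr.1
        show 0 < r
        linarith) (subset_refl _))
    · intro s t hs hst _ x
      exact (dh_dt hFb hFc hF hL hS ha (fun t ht x => (hC t ht x).2.1) hs hst).duh x
  · obtain ⟨C, hC0, hClip, hC⟩ := bounds hA hG hFb hFc hF hL hS one_pos
    exact ⟨C, fun t ht x => hC t ht x⟩

end Pool.Agent.H76.RF
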