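import Pool.Agent.H91.RF.TargetsF
import Pool.Agent.H91.RD.Basic
import Pool.Agent.H35.RD.Base

/-!
# MP_609556_an, full answer: regularity of Duhamel potentials (for LINU and CONV)
-/

open MeasureTheory Set Filter Topology Metric
open Pool.Agent.H29.TF
open Pool.Agent.H91.RD

namespace Pool.Agent.H76.RF

variable {N : ℕ}

/-- gradient of `P τ g` -/
noncomputable def GP (τ : ℝ) (g : E N → ℝ) (x : E N) : E N →L[ℝ] ℝ :=
  ∫ y, (-(1 / (2 * τ)) * (hk τ (x - y) * g y)) • (innerSL ℝ (x - y) : E N →L[ℝ] ℝ)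

/-- the gradient bound, extracted from `T_GRAD` -/
def GB (N : ℕ) (A : ℝ) : Prop :=
  ∀ t > 0, ∀ (g : E N → ℝ) (M : ℝ), AEStronglyMeasurable g volume → (∀ y, |g y| ≤ M) →
      ∀ x y, |P t g x - P t g y| ≤ A * M / √t * ‖x - y‖

theorem hasFDerivAt_GP {τ : ℝ} (hτ : 0 < τ) {g : E N → ℝ} (hg : AEStronglyMeasurable g volume)
    {M : ℝ} (hM : ∀ x, |g x| ≤ M) (x : E N) : HasFDerivAt (P τ g) (GP τ g x) x :=
  hasFDerivAt_P hτ hg hM x

theorem norm_GP_le {A : ℝ} (hA : 0 ≤ A) (hG : GB N A) {τ : ℝ} (hτ : 0 < τ) {g : E N → ℝ}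
    (hg : AEStronglyMeasurable g volume) {M : ℝ} (hM : ∀ x, |g x| ≤ M) (x : E N) :
    ‖GP τ g x‖ ≤ A * M / √τ := by
  have hM0 : 0 ≤ M := (abs_nonneg _).trans (hM 0)
  have h0 : 0 ≤ A * M / √τ := by positivity
  have h1 : LipschitzWith (Real.toNNReal (A * M / √τ)) (P τ g) := by
    refine LipschitzWith.of_dist_le_mul fun a b => ?_
    rw [Real.dist_eq, dist_eq_norm, Real.coe_toNNReal _ h0]
    exact hG τ hτ g M hg hM a b
  have h2 := (hasFDerivAt_GP hτ hg hM x).le_of_lipschitz h1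
  rwa [Real.coe_toNNReal _ h0] at h2

theorem integrable_norm_hk {τ : ℝ} (hτ : 0 < τ) (x : E N) :
    Integrable (fun y : E N => ‖x - y‖ * hk τ (x - y)) := by
  have h1 : Integrable (fun z : E N => ‖z‖ * hk τ z) := by
    refine (integrable_one_add_norm_mul_hk hτ).mono' (Continuous.aestronglyMeasurable (by fun_prop))
      (Filter.Eventually.of_forall fun z => ?_)
    rw [Real.norm_of_nonneg (mul_nonneg (norm_nonneg _) (hk_nonneg hτ.le _))]
    exact mul_le_mul_of_nonneg_right (by linarith) (hk_nonneg hτ.le _)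
  exact h1.comp_sub_left x

theorem norm_GPk_le {τ : ℝ} (hτ : 0 < τ) {a M : ℝ} (ha : |a| ≤ M) (x y : E N) :
    ‖(-(1 / (2 * τ)) * (hk τ (x - y) * a)) • (innerSL ℝ (x - y) : E N →L[ℝ] ℝ)‖ ≤
      1 / (2 * τ) * M * (‖x - y‖ * hk τ (x - y)) := by
  have h5 := hk_nonneg hτ.le (x - y)
  rw [norm_smul, innerSL_apply_norm, norm_mul, norm_neg, norm_mul,
    Real.norm_of_nonneg (by positivity : 0 ≤ 1 / (2 * τ)), Real.norm_of_nonneg h5,
    Real.norm_eq_abs]
  calc 1 / (2 * τ) * (hk τ (x - y) * |a|) * ‖x - y‖ =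
      (1 / (2 * τ)) * (‖x - y‖ * hk τ (x - y)) * |a| := by ring
    _ ≤ (1 / (2 * τ)) * (‖x - y‖ * hk τ (x - y)) * M :=
        mul_le_mul_of_nonneg_left ha (by positivity)
    _ = _ := by ring

theorem aesm_GPk {τ : ℝ} {g : E N → ℝ} (hg : AEStronglyMeasurable g volume) (x : E N) :
    AEStronglyMeasurable (fun y => (-(1 / (2 * τ)) * (hk τ (x - y) * g y)) •
      (innerSL ℝ (x - y) : E N →L[ℝ] ℝ)) volume := by
  have h1 : AEStronglyMeasurable (fun y : E N => hk τ (x - y)) volume :=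
    Continuous.aestronglyMeasurable (by fun_prop)
  exact ((h1.mul hg).const_mul (-(1 / (2 * τ)))).smul (Continuous.aestronglyMeasurable
    (f := fun y : E N => (innerSL ℝ (x - y) : E N →L[ℝ] ℝ)) (by fun_prop))

/-- dominated convergence for `GP` -/
theorem tendsto_GP {ι : Type*} {l : Filter ι} [l.IsCountablyGenerated] {τ : ℝ} (hτ : 0 < τ)
    {g : ι → E N → ℝ} {g0 : E N → ℝ} {M : ℝ} (hg : ∀ᶠ n in l, AEStronglyMeasurable (g n) volume)
    (hM : ∀ᶠ n in l, ∀ x, |g n x| ≤ M) (hl : ∀ y, Tendsto (fun n => g n y) l (𝓝 (g0 y)))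
    (x : E N) : Tendsto (fun n => GP τ (g n) x) l (𝓝 (GP τ g0 x)) := by
  unfold GP
  refine tendsto_integral_filter_of_dominated_convergence
    (fun y => 1 / (2 * τ) * M * (‖x - y‖ * hk τ (x - y))) ?_ ?_ ?_ ?_
  · exact hg.mono fun n hn => aesm_GPk hn x
  · exact hM.mono fun n hn => Filter.Eventually.of_forall fun y => norm_GPk_le hτ (hn y) x y
  · exact (integrable_norm_hk hτ x).const_mul _
  · refine Filter.Eventually.of_forall fun y => ?_
    exact (((hl y).const_mul _).const_mul _).smul_const _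

/-- dominated convergence for `P` -/
theorem tendsto_P {ι : Type*} {l : Filter ι} [l.IsCountablyGenerated] {τ : ℝ} (hτ : 0 < τ)
    {g : ι → E N → ℝ} {g0 : E N → ℝ} {M : ℝ} (hg : ∀ᶠ n in l, AEStronglyMeasurable (g n) volume)
    (hM : ∀ᶠ n in l, ∀ x, |g n x| ≤ M) (hl : ∀ y, Tendsto (fun n => g n y) l (𝓝 (g0 y)))
    (x : E N) : Tendsto (fun n => P τ (g n) x) l (𝓝 (P τ g0 x)) := by
  unfold P
  refine tendsto_integral_filter_of_dominated_convergence
    (fun y => hk τ (x - y) * M) ?_ ?_ ?_ ?_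
  · exact hg.mono fun n hn => (Continuous.aestronglyMeasurable (by fun_prop)).mul hn
  · refine hM.mono fun n hn => Filter.Eventually.of_forall fun y => ?_
    rw [norm_mul, Real.norm_of_nonneg (hk_nonneg hτ.le _), Real.norm_eq_abs]
    exact mul_le_mul_of_nonneg_left (hn y) (hk_nonneg hτ.le _)
  · exact (integrable_hk_sub hτ x).mul_const _
  · exact Filter.Eventually.of_forall fun y => (hl y).const_mul _

/-- continuity of the gradient of `P τ g` -/
theorem continuous_GP {τ : ℝ} (hτ : 0 < τ) {g : E N → ℝ} (hg : AEStronglyMeasurable g volume)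
    {M : ℝ} (hM : ∀ x, |g x| ≤ M) : Continuous (GP τ g) := by
  have hM0 : 0 ≤ M := (abs_nonneg _).trans (hM 0)
  rw [continuous_iff_continuousAt]
  intro x
  set A : ℝ := 2 * (1 + 4 * τ) * 2 ^ ((Module.finrank ℝ (E N) : ℝ) / 2) with hA
  set B : ℝ := 2 ^ ((Module.finrank ℝ (E N) : ℝ) / 2) * Real.exp (1 / (4 * (2 * τ))) with hB
  unfold GP
  apply continuousAt_of_dominated
    (bound := fun y : E N => (1 / (2 * τ)) * M * (A * (B * hk (2 * (2 * τ)) (x - y))))
  · exact Filter.Eventually.of_forall fun x' => aesm_GPk hg x'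
  · filter_upwards [Metric.ball_mem_nhds x one_pos] with x' hx'
    refine Filter.Eventually.of_forall fun y => (norm_GPk_le hτ (hM y) x' y).trans ?_
    have h1 := norm_mul_hk_le hτ (x' - y)
    have h2 := hk_near (t := 2 * τ) (by positivity) (x := x' - y) (y := x - y) (by
      rw [sub_sub_sub_cancel_right]
      exact (mem_ball_iff_norm.1 hx').le)
    have h3 : ‖x' - y‖ * hk τ (x' - y) ≤ (1 + ‖x' - y‖) * hk τ (x' - y) :=
      mul_le_mul_of_nonneg_right (by linarith) (hk_nonneg hτ.le _)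
    exact mul_le_mul_of_nonneg_left (h3.trans (h1.trans (mul_le_mul_of_nonneg_left h2
      (by positivity)))) (by positivity)
  · exact (((integrable_hk_sub (by positivity) x).const_mul _).const_mul _).const_mul _
  · refine Filter.Eventually.of_forall fun y => ?_
    have : Continuous fun x' : E N => (-(1 / (2 * τ)) * (hk τ (x' - y) * g y)) •
      (innerSL ℝ (x' - y) : E N →L[ℝ] ℝ) := by fun_prop
    exact this.continuousAt

/-! ### the singular weight -/

theorem ii_invsqrt {s t : ℝ} (hst : s ≤ t) (c : ℝ) :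
    IntervalIntegrable (fun r : ℝ => c / √(t - r)) volume s t := by
  have h1 : IntervalIntegrable (fun r : ℝ => r ^ (-(1 / 2) : ℝ)) volume 0 (t - s) :=
    intervalIntegral.intervalIntegrable_rpow' (by norm_num)
  have h2 := (h1.comp_sub_left t).symm
  simp only [sub_zero, sub_sub_cancel] at h2
  have h3 := h2.const_mul c
  refine h3.congr (fun r hr => ?_)
  rw [uIoc_of_le hst] at hr
  show c * (t - r) ^ (-(1 / 2) : ℝ) = c / √(t - r)
  rw [Real.rpow_neg (by linarith [hr.2]), ← Real.sqrt_eq_rpow, div_eq_mul_inv]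

theorem int_invsqrt {s t : ℝ} (hst : s ≤ t) (c : ℝ) :
    ∫ r in s..t, c / √(t - r) = 2 * c * √(t - s) := by
  have h1 : ∫ r in s..t, c / √(t - r) = ∫ r in s..t, c * (t - r) ^ (-(1 / 2) : ℝ) := by
    apply intervalIntegral.integral_congr
    intro r hr
    rw [uIcc_of_le hst] at hr
    show c / √(t - r) = c * (t - r) ^ (-(1 / 2) : ℝ)
    rw [Real.rpow_neg (by linarith [hr.2]), ← Real.sqrt_eq_rpow, div_eq_mul_inv]
  rw [h1, intervalIntegral.integral_const_mul,
    intervalIntegral.integral_comp_sub_left (fun r => r ^ (-(1 / 2) : ℝ)) t,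
    integral_rpow (Or.inl (by norm_num)), sub_self]
  have h2 : (0 : ℝ) ^ (-(1 / 2 : ℝ) + 1) = 0 := Real.zero_rpow (by norm_num)
  rw [h2, Real.sqrt_eq_rpow]
  norm_num
  ring

/-! ### Duhamel data -/

/-- bounded Duhamel formula on one time step -/
structure Dh (M : ℝ) (z S : ℝ → E N → ℝ) (s t : ℝ) : Prop where
  lt : s < t
  meas : Measurable (z s)
  bz : ∀ x, |z s x| ≤ M
  bS : ∀ r ∈ Ioo s t, ∀ x, |S r x| ≤ M
  cS : ContinuousOn (fun p : ℝ × E N => S p.1 p.2) (Ioo s t ×ˢ univ)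
  duh : ∀ x, z t x = P (t - s) (z s) x + ∫ r in s..t, P (t - r) (S r) x

theorem slice {S : ℝ → E N → ℝ} {I : Set ℝ} (hS : ContinuousOn (fun p : ℝ × E N => S p.1 p.2)
    (I ×ˢ univ)) {r : ℝ} (hr : r ∈ I) : Continuous (S r) := by
  have h1 : ContinuousOn ((fun p : ℝ × E N => S p.1 p.2) ∘ fun y : E N => (r, y)) univ :=
    hS.comp (by fun_prop) fun y _ => ⟨hr, mem_univ _⟩
  exact continuousOn_univ.1 h1

theorem ae_Ioo {s t : ℝ} (hst : s ≤ t) {p : ℝ → Prop} (hp : ∀ r ∈ Ioo s t, p r) :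
    ∀ᵐ r : ℝ ∂volume, r ∈ uIoc s t → p r := by
  have h0 : ∀ᵐ r : ℝ ∂volume, r ≠ t := by
    have : volume ({t} : Set ℝ) = 0 := by simp
    exact measure_eq_zero_iff_ae_notMem.1 this
  filter_upwards [h0] with r hr0 hr
  rw [uIoc_of_le hst] at hr
  exact hp r ⟨hr.1, lt_of_le_of_ne hr.2 hr0⟩

theorem restrict_uIoc {s t : ℝ} (hst : s ≤ t) :
    (volume : Measure ℝ).restrict (uIoc s t) = volume.restrict (Ioo s t) := by
  rw [uIoc_of_le hst]
  exact (Measure.restrict_congr_set Ioo_ae_eq_Ioc).symm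

theorem aesm_strip' {F : Type*} [NormedAddCommGroup F] {s t : ℝ} {H : ℝ × E N → F}
    (hF : ContinuousOn H (Ioo s t ×ˢ univ)) :
    AEStronglyMeasurable H ((volume.restrict (Ioo s t)).prod (volume : Measure (E N))) := by
  have h3 : (volume.restrict (Ioo s t)).prod (volume : Measure (E N)) =
      (volume : Measure (ℝ × E N)).restrict (Ioo s t ×ˢ univ) := by
    rw [Measure.volume_eq_prod, ← Measure.prod_restrict, Measure.restrict_univ]
  rw [h3]
  exact hF.aestronglyMeasurable (measurableSet_Ioo.prod MeasurableSet.univ)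

/-- measurability in time of the gradient -/
theorem aesm_GP_time {s t : ℝ} {S : ℝ → E N → ℝ}
    (hS : ContinuousOn (fun p : ℝ × E N => S p.1 p.2) (Ioo s t ×ˢ univ)) (x : E N) :
    AEStronglyMeasurable (fun r => GP (t - r) (S r) x) (volume.restrict (Ioo s t)) := by
  have h1 : AEStronglyMeasurable (fun p : ℝ × E N => (-(1 / (2 * (t - p.1))) *
      (hk (t - p.1) (x - p.2) * S p.1 p.2)) • (innerSL ℝ (x - p.2) : E N →L[ℝ] ℝ))
      ((volume.restrict (Ioo s t)).prod (volume : Measure (E N))) := by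
    refine AEStronglyMeasurable.smul (f := fun p : ℝ × E N => -(1 / (2 * (t - p.1))) *
      (hk (t - p.1) (x - p.2) * S p.1 p.2))
      (g := fun p : ℝ × E N => (innerSL ℝ (x - p.2) : E N →L[ℝ] ℝ)) ?_ ?_
    · apply AEStronglyMeasurable.mul
      · exact Measurable.aestronglyMeasurable (by fun_prop)
      · apply AEStronglyMeasurable.mul
        · apply Measurable.aestronglyMeasurable
          exact measurable_hk_uncurry.comp (by fun_prop :
            Measurable fun p : ℝ × E N => (t - p.1, x - p.2))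
        · exact aesm_strip' hS
    · exact Continuous.aestronglyMeasurable
        (f := fun p : ℝ × E N => (innerSL ℝ (x - p.2) : E N →L[ℝ] ℝ)) (by fun_prop)
  exact h1.integral_prod_right'

/-- the gradient of a Duhamel function -/
noncomputable def GD (z S : ℝ → E N → ℝ) (s t : ℝ) (x : E N) : E N →L[ℝ] ℝ :=
  GP (t - s) (z s) x + ∫ r in s..t, GP (t - r) (S r) x

theorem Dh.hasFDerivAt {A M : ℝ} (hA : 0 ≤ A) (hG : GB N A) {z S : ℝ → E N → ℝ} {s t : ℝ}
    (h : Dh M z S s t) (x : E N) : HasFDerivAt (z t) (GD z S s t x) x := by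
  have hst := h.lt
  have e : z t = fun x => P (t - s) (z s) x + ∫ r in s..t, P (t - r) (S r) x := funext h.duh
  rw [e]
  unfold GD
  refine (hasFDerivAt_GP (by linarith) h.meas.aestronglyMeasurable h.bz x).add ?_
  have hii := fun x => Pool.Agent.H35.RD.ii_duh hst.le h.bS h.cS x
  refine intervalIntegral.hasFDerivAt_integral_of_dominated_of_fderiv_le (𝕜 := ℝ)
    (F := fun x r => P (t - r) (S r) x) (F' := fun x r => GP (t - r) (S r) x)
    (s := univ) (bound := fun r => A * M / √(t - r)) Filter.univ_mem ?_ (hii x) ?_ ?_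
    (ii_invsqrt hst.le _) ?_
  · exact Filter.Eventually.of_forall fun x => (intervalIntegrable_iff.1 (hii x)).aestronglyMeasurable
  · rw [restrict_uIoc hst.le]
    exact aesm_GP_time h.cS x
  · refine ae_Ioo hst.le fun r hr x _ => ?_
    exact norm_GP_le hA hG (by linarith [hr.2]) (slice h.cS hr).aestronglyMeasurable (h.bS r hr) x
  · refine ae_Ioo hst.le fun r hr x _ => ?_
    exact hasFDerivAt_GP (by linarith [hr.2]) (slice h.cS hr).aestronglyMeasurable (h.bS r hr) x

theorem Dh.norm_GD_le {A M : ℝ} (hA : 0 ≤ A) (hG : GB N A) {z S : ℝ → E N → ℝ} {s t : ℝ}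
    (h : Dh M z S s t) (x : E N) : ‖GD z S s t x‖ ≤ A * M / √(t - s) + 2 * (A * M) * √(t - s) := by
  have hst := h.lt
  unfold GD
  refine (norm_add_le _ _).trans (add_le_add ?_ ?_)
  · exact norm_GP_le hA hG (by linarith) h.meas.aestronglyMeasurable h.bz x
  · have h1 : ∀ᵐ r, r ∈ Ioc s t → ‖GP (t - r) (S r) x‖ ≤ A * M / √(t - r) := by
      have := ae_Ioo hst.le (p := fun r => ‖GP (t - r) (S r) x‖ ≤ A * M / √(t - r)) fun r hr =>
        norm_GP_le hA hG (by linarith [hr.2]) (slice h.cS hr).aestronglyMeasurable (h.bS r hr) x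
      rwa [uIoc_of_le hst.le] at this
    have h2 := intervalIntegral.norm_integral_le_of_norm_le hst.le h1 (ii_invsqrt hst.le _)
    rwa [int_invsqrt hst.le] at h2

theorem Dh.continuous_GD {A M : ℝ} (hA : 0 ≤ A) (hG : GB N A) {z S : ℝ → E N → ℝ} {s t : ℝ}
    (h : Dh M z S s t) : Continuous (GD z S s t) := by
  have hst := h.lt
  unfold GD
  refine (continuous_GP (by linarith) h.meas.aestronglyMeasurable h.bz).add ?_
  apply intervalIntegral.continuous_of_dominated_interval
    (bound := fun r => A * M / √(t - r))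
  · intro x
    rw [restrict_uIoc hst.le]
    exact aesm_GP_time h.cS x
  · intro x
    exact ae_Ioo hst.le fun r hr =>
      norm_GP_le hA hG (by linarith [hr.2]) (slice h.cS hr).aestronglyMeasurable (h.bS r hr) x
  · exact ii_invsqrt hst.le _
  · refine ae_Ioo hst.le fun r hr => ?_
    exact continuous_GP (by linarith [hr.2]) (slice h.cS hr).aestronglyMeasurable (h.bS r hr)

theorem Dh.contDiff {A M : ℝ} (hA : 0 ≤ A) (hG : GB N A) {z S : ℝ → E N → ℝ} {s t : ℝ}
    (h : Dh M z S s t) : ContDiff ℝ 1 (z t) := by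
  rw [contDiff_one_iff_fderiv]
  refine ⟨fun x => (h.hasFDerivAt hA hG x).differentiableAt, ?_⟩
  have : fderiv ℝ (z t) = GD z S s t := funext fun x => (h.hasFDerivAt hA hG x).fderiv
  rw [this]
  exact h.continuous_GD hA hG

/-- Lipschitz bound -/
theorem Dh.lip {A M : ℝ} (hA : 0 ≤ A) (hG : GB N A) {z S : ℝ → E N → ℝ} {s t : ℝ}
    (h : Dh M z S s t) (x y : E N) :
    |z t x - z t y| ≤ (A * M / √(t - s) + 2 * (A * M) * √(t - s)) * ‖x - y‖ := by
  have h1 := Convex.norm_image_sub_le_of_norm_hasFDerivWithin_le (𝕜 := ℝ) (f := z t)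
    (f' := GD z S s t) (s := univ) (x := y) (y := x)
    (fun x _ => (h.hasFDerivAt hA hG x).hasFDerivWithinAt) (fun x _ => h.norm_GD_le hA hG x)
    convex_univ (mem_univ _) (mem_univ _)
  rwa [Real.norm_eq_abs] at h1

/-- limits of Duhamel data -/
theorem Dh.lim {ι : Type*} {l : Filter ι} [l.IsCountablyGenerated] [NeBot l] {M : ℝ}
    {z S : ι → ℝ → E N → ℝ}
    {z0 S0 : ℝ → E N → ℝ} {s t : ℝ} (hst : s < t) (h : ∀ᶠ n in l, Dh M (z n) (S n) s t)
    (hz0 : Measurable (z0 s))
    (hc : ContinuousOn (fun p : ℝ × E N => S0 p.1 p.2) (Ioo s t ×ˢ univ))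
    (hs : ∀ y, Tendsto (fun n => z n s y) l (𝓝 (z0 s y)))
    (ht : ∀ y, Tendsto (fun n => z n t y) l (𝓝 (z0 t y)))
    (hS : ∀ r ∈ Ioo s t, ∀ y, Tendsto (fun n => S n r y) l (𝓝 (S0 r y))) :
    Dh M z0 S0 s t where
  lt := hst
  meas := hz0
  bz x := le_of_tendsto (hs x).abs (h.mono fun n hn => hn.bz x)
  bS r hr x := le_of_tendsto (hS r hr x).abs (h.mono fun n hn => hn.bS r hr x)
  cS := hc
  duh x := by
    refine tendsto_nhds_unique (ht x) ?_
    have h1 : Tendsto (fun n => P (t - s) (z n s) x) l (𝓝 (P (t - s) (z0 s) x)) :=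
      tendsto_P (by linarith) (h.mono fun n hn => hn.meas.aestronglyMeasurable)
        (h.mono fun n hn => hn.bz) hs x
    have h2 : Tendsto (fun n => ∫ r in s..t, P (t - r) (S n r) x) l
        (𝓝 (∫ r in s..t, P (t - r) (S0 r) x)) := by
      refine intervalIntegral.tendsto_integral_filter_of_dominated_convergence (fun _ => M) ?_ ?_ ?_ ?_
      · exact h.mono fun n hn => (intervalIntegrable_iff.1
          (Pool.Agent.H35.RD.ii_duh hst.le hn.bS hn.cS x)).aestronglyMeasurable
      · exact h.mono fun n hn => ae_Ioo hst.le fun r hr => by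
          rw [Real.norm_eq_abs]
          exact abs_P_le (by linarith [hr.2]) (hn.bS r hr) x
      · exact intervalIntegrable_const
      · refine ae_Ioo hst.le fun r hr => ?_
        exact tendsto_P (by linarith [hr.2])
          (h.mono fun n hn => (slice hn.cS hr).aestronglyMeasurable)
          (h.mono fun n hn => hn.bS r hr) (hS r hr) x
    refine (h1.add h2).congr' ?_
    exact h.mono fun n hn => (hn.duh x).symm

/-- convergence of the gradients -/
theorem Dh.tendsto_GD {ι : Type*} {l : Filter ι} [l.IsCountablyGenerated] {A M : ℝ} (hA : 0 ≤ A)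
    (hG : GB N A) {z S : ι → ℝ → E N → ℝ}
    {z0 S0 : ℝ → E N → ℝ} {s t : ℝ} (hst : s < t) (h : ∀ᶠ n in l, Dh M (z n) (S n) s t)
    (hs : ∀ y, Tendsto (fun n => z n s y) l (𝓝 (z0 s y)))
    (hS : ∀ r ∈ Ioo s t, ∀ y, Tendsto (fun n => S n r y) l (𝓝 (S0 r y))) (x : E N) :
    Tendsto (fun n => GD (z n) (S n) s t x) l (𝓝 (GD z0 S0 s t x)) := by
  unfold GD
  refine (tendsto_GP (by linarith) (h.mono fun n hn => hn.meas.aestronglyMeasurable)
    (h.mono fun n hn => hn.bz) hs x).add ?_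
  refine intervalIntegral.tendsto_integral_filter_of_dominated_convergence
    (fun r => A * M / √(t - r)) ?_ ?_ ?_ ?_
  · refine h.mono fun n hn => ?_
    rw [restrict_uIoc hst.le]
    exact aesm_GP_time hn.cS x
  · exact h.mono fun n hn => ae_Ioo hst.le fun r hr =>
      norm_GP_le hA hG (by linarith [hr.2]) (slice hn.cS hr).aestronglyMeasurable (hn.bS r hr) x
  · exact ii_invsqrt hst.le _
  · refine ae_Ioo hst.le fun r hr => ?_
    exact tendsto_GP (by linarith [hr.2])
      (h.mono fun n hn => (slice hn.cS hr).aestronglyMeasurable)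
      (h.mono fun n hn => hn.bS r hr) (hS r hr) x

/-- linear combinations -/
theorem Dh.sub_mul {M : ℝ} {z S z' S' : ℝ → E N → ℝ} {s t : ℝ} (h : Dh M z S s t)
    (h' : Dh M z' S' s t) (c : ℝ) :
    Dh (|c| * (M + M)) (fun r x => c * (z r x - z' r x)) (fun r x => c * (S r x - S' r x)) s t where
  lt := h.lt
  meas := (h.meas.sub h'.meas).const_mul c
  bz x := by
    rw [abs_mul]
    exact mul_le_mul_of_nonneg_left ((abs_sub _ _).trans (add_le_add (h.bz x) (h'.bz x)))
      (abs_nonneg c)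
  bS r hr x := by
    rw [abs_mul]
    exact mul_le_mul_of_nonneg_left ((abs_sub _ _).trans
      (add_le_add (h.bS r hr x) (h'.bS r hr x))) (abs_nonneg c)
  cS := (h.cS.sub h'.cS).const_smul c
  duh x := by
    have hst := h.lt
    have e1 : P (t - s) (fun x => c * (z s x - z' s x)) x =
        c * (P (t - s) (z s) x - P (t - s) (z' s) x) := by
      rw [P_const_mul, P_sub x (integrable_hk_mul (by linarith) h.meas.aestronglyMeasurable h.bz x)
        (integrable_hk_mul (by linarith) h'.meas.aestronglyMeasurable h'.bz x)]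
    have e2 : ∫ r in s..t, P (t - r) (fun x => c * (S r x - S' r x)) x =
        c * ((∫ r in s..t, P (t - r) (S r) x) - ∫ r in s..t, P (t - r) (S' r) x) := by
      rw [← intervalIntegral.integral_sub (Pool.Agent.H35.RD.ii_duh hst.le h.bS h.cS x)
        (Pool.Agent.H35.RD.ii_duh hst.le h'.bS h'.cS x), ← intervalIntegral.integral_const_mul]
      refine intervalIntegral.integral_congr_ae (ae_Ioo hst.le fun r hr => ?_)
      rw [P_const_mul, P_sub x
        (integrable_hk_mul (by linarith [hr.2]) (slice h.cS hr).aestronglyMeasurable (h.bS r hr) x)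
        (integrable_hk_mul (by linarith [hr.2]) (slice h'.cS hr).aestronglyMeasurable
          (h'.bS r hr) x)]
    show c * (z t x - z' t x) = _
    rw [e1, e2, h.duh x, h'.duh x]
    ring

/-- change of the bound -/
theorem Dh.bound {M M' : ℝ} {z S : ℝ → E N → ℝ} {s t : ℝ} (h : Dh M z S s t)
    (h1 : ∀ x, |z s x| ≤ M') (h2 : ∀ r ∈ Ioo s t, ∀ x, |S r x| ≤ M') : Dh M' z S s t where
  lt := h.lt
  meas := h.meas
  bz := h1
  bS := h2
  cS := h.cS
  duh := h.duh

theorem P_add_right (τ : ℝ) (g : E N → ℝ) (v x : E N) :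
    P τ g (v + x) = P τ (fun y => g (v + y)) x := by
  rw [P_eq_conv, P_eq_conv]
  congr 1
  ext y
  rw [add_sub_assoc]

/-- translation in space and time -/
theorem Dh.shift {M : ℝ} {z S : ℝ → E N → ℝ} {s t : ℝ} (τ : ℝ) (v : E N)
    (h : Dh M z S (τ + s) (τ + t)) :
    Dh M (fun r x => z (τ + r) (v + x)) (fun r x => S (τ + r) (v + x)) s t where
  lt := by linarith [h.lt]
  meas := h.meas.comp (measurable_const_add v)
  bz x := h.bz _
  bS r hr x := h.bS _ ⟨by linarith [hr.1], by linarith [hr.2]⟩ _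
  cS := by
    refine h.cS.comp (f := fun p : ℝ × E N => (τ + p.1, v + p.2)) (by fun_prop) ?_
    rintro ⟨r, x⟩ ⟨hr, -⟩
    exact ⟨⟨by linarith [hr.1], by linarith [hr.2]⟩, mem_univ _⟩
  duh x := by
    have h1 := h.duh (v + x)
    rw [P_add_right, add_sub_add_left_eq_sub] at h1
    rw [h1]
    congr 1
    rw [← intervalIntegral.integral_comp_add_left
      (fun r => P (τ + t - r) (S r) (v + x)) τ]
    congr 1
    ext r
    rw [P_add_right, add_sub_add_left_eq_sub]

/-- modulus of continuity in time -/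
theorem P_sub_self_le {τ A L M : ℝ} (hτ : 0 < τ) (hL : 0 ≤ L) {g : E N → ℝ}
    (hg : Measurable g) (hgb : ∀ x, |g x| ≤ M)
    (h1 : Integrable (fun z : E N => hk τ z * ‖z‖)) (h2 : ∫ z : E N, hk τ z * ‖z‖ ≤ A * √τ)
    (hlip : ∀ x y, |g x - g y| ≤ L * ‖x - y‖) (x : E N) :
    |P τ g x - g x| ≤ L * (A * √τ) := by
  have e1 : P τ g x - g x = ∫ y, hk τ (x - y) * (g y - g x) := by
    have i1 := integrable_hk_mul hτ hg.aestronglyMeasurable hgb x
    have i2 : Integrable (fun y : E N => hk τ (x - y) * g x) :=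
      (integrable_hk_sub hτ x).mul_const _
    have e2 : (∫ y, hk τ (x - y) * (g y - g x)) =
        (∫ y, hk τ (x - y) * g y) - ∫ y, hk τ (x - y) * g x := by
      rw [← integral_sub i1 i2]
      congr 1; ext y; ring
    rw [e2, integral_mul_const, integral_hk_sub hτ, one_mul]
    rfl
  rw [e1, ← Real.norm_eq_abs]
  have h3 : Integrable (fun y : E N => hk τ (x - y) * ‖x - y‖) := h1.comp_sub_left x
  have h4 : ∫ y : E N, hk τ (x - y) * ‖x - y‖ = ∫ z : E N, hk τ z * ‖z‖ :=
    integral_sub_left_eq_self (fun z : E N => hk τ z * ‖z‖) volume x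
  calc ‖∫ y, hk τ (x - y) * (g y - g x)‖ ≤ ∫ y, L * (hk τ (x - y) * ‖x - y‖) := by
        apply norm_integral_le_of_norm_le (h3.const_mul L)
        refine Eventually.of_forall fun y => ?_
        rw [norm_mul, Real.norm_of_nonneg (hk_nonneg hτ.le _), Real.norm_eq_abs,
          abs_sub_comm]
        have := hlip x y
        have h5 := hk_nonneg hτ.le (x - y)
        nlinarith
    _ = L * ∫ z : E N, hk τ z * ‖z‖ := by rw [integral_const_mul, h4]
    _ ≤ L * (A * √τ) := mul_le_mul_of_nonneg_left h2 hL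

/-- time increments of a Duhamel function which is Lipschitz in space at the starting time -/
theorem Dh.time_le {A M L : ℝ} {z S : ℝ → E N → ℝ} {s t : ℝ} (h : Dh M z S s t) (hL : 0 ≤ L)
    (h1 : Integrable (fun z : E N => hk (t - s) z * ‖z‖))
    (h2 : ∫ z : E N, hk (t - s) z * ‖z‖ ≤ A * √(t - s))
    (hlip : ∀ x y, |z s x - z s y| ≤ L * ‖x - y‖) (x : E N) :
    |z t x - z s x| ≤ L * (A * √(t - s)) + M * (t - s) := by
  have hst := h.lt
  have e : z t x - z s x = (P (t - s) (z s) x - z s x) + ∫ r in s..t, P (t - r) (S r) x := by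
    rw [h.duh x]; ring
  rw [e]
  refine (abs_add_le _ _).trans (add_le_add ?_ ?_)
  · exact P_sub_self_le (by linarith) hL h.meas h.bz h1 h2 hlip x
  · exact Pool.Agent.H35.RD.abs_duh_le hst.le h.bS x

/-- difference quotients along `1/(n+1)` -/
theorem tendsto_dq {φ : ℝ → ℝ} {d : ℝ} (h : HasDerivWithinAt φ d (Ici 0) 0) :
    Tendsto (fun n : ℕ => ((n : ℝ) + 1) * (φ (((n : ℝ) + 1)⁻¹) - φ 0)) atTop (𝓝 d) := by
  have h1 := hasDerivWithinAt_iff_tendsto_slope.1 h
  have h2 : Tendsto (fun n : ℕ => ((n : ℝ) + 1)⁻¹) atTop (𝓝[Ici 0 \ {0}] 0) := by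
    apply tendsto_nhdsWithin_of_tendsto_nhds_of_eventually_within
    · exact tendsto_inv_atTop_zero.comp (tendsto_natCast_atTop_atTop.atTop_add tendsto_const_nhds)
    · refine Filter.Eventually.of_forall fun n => ?_
      have : (0 : ℝ) ≤ n := Nat.cast_nonneg n
      have h3 : (0 : ℝ) < ((n : ℝ) + 1)⁻¹ := by positivity
      exact ⟨h3.le, h3.ne'⟩
  have h3 := h1.comp h2
  refine h3.congr fun n => ?_
  simp only [Function.comp, slope, vsub_eq_sub, sub_zero, smul_eq_mul, inv_inv]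

end Pool.Agent.H76.RF
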