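import Pool.Agent.H91.RF.TargetsR
import Pool.Agent.H76.RF.Heat2
import Pool.Agent.H76.RF.Heat3

/-!
# MP_609556_an, full answer: module MRG (mild solutions are classical for positive times)
-/

open MeasureTheory Set Filter Topology Metric
open Pool.Agent.H29.TF
open Pool.Agent.H91.RD Pool.Agent.H91.RF

namespace Pool.Agent.H76.RF

variable {N : ℕ}

theorem ioi_nhds {a t : ℝ} (h : a < t) (x : E N) : (Ioi a ×ˢ (univ : Set (E N))) ∈ 𝓝 (t, x) :=
  (isOpen_Ioi.prod isOpen_univ).mem_nhds ⟨h, mem_univ _⟩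

/-- joint continuity of the gradient of a Duhamel function -/
theorem cont_fderiv_of_dh {A M a : ℝ} (hA : 0 ≤ A) (hG : GB N A) {z S : ℝ → E N → ℝ}
    (hz : ContinuousOn (fun p : ℝ × E N => z p.1 p.2) (Ioi a ×ˢ univ))
    (hS : ContinuousOn (fun p : ℝ × E N => S p.1 p.2) (Ioi a ×ˢ univ))
    (h : ∀ s t, a < s → s < t → Dh M z S s t) :
    ContinuousOn (fun p : ℝ × E N => fderiv ℝ (z p.1) p.2) (Ioi a ×ˢ univ) := by
  rintro ⟨t, x⟩ ⟨ht, -⟩
  apply ContinuousAt.continuousWithinAt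
  have ht' : a < t := ht
  set s := (a + t) / 2 with hs
  have has : a < s := by rw [hs]; linarith
  have hst : s < t := by rw [hs]; linarith
  have hsh : ∀ᶠ p : ℝ × E N in 𝓝 (t, x), Dh M (fun r y => z ((p.1 - t) + r) ((p.2 - x) + y))
      (fun r y => S ((p.1 - t) + r) ((p.2 - x) + y)) s t := by
    have h1 : ∀ᶠ p : ℝ × E N in 𝓝 (t, x), a < (p.1 - t) + s := by
      have : ContinuousAt (fun p : ℝ × E N => (p.1 - t) + s) (t, x) := by fun_prop
      have h2 := this.tendsto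
      simp only [sub_self, zero_add] at h2
      exact h2.eventually (lt_mem_nhds has)
    filter_upwards [h1] with p hp
    exact (h _ _ hp (by linarith)).shift (p.1 - t) (p.2 - x)
  have hlim : ∀ (g : ℝ → E N → ℝ), ContinuousOn (fun p : ℝ × E N => g p.1 p.2) (Ioi a ×ˢ univ) →
      ∀ r > a, ∀ y, Tendsto (fun p : ℝ × E N => g ((p.1 - t) + r) ((p.2 - x) + y)) (𝓝 (t, x))
        (𝓝 (g r y)) := by
    intro g hg r hr y
    have h1 := (hg.continuousAt (ioi_nhds hr y)).tendsto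
    have h2 : Tendsto (fun p : ℝ × E N => ((p.1 - t) + r, (p.2 - x) + y)) (𝓝 (t, x))
        (𝓝 (r, y)) := by
      have : ContinuousAt (fun p : ℝ × E N => ((p.1 - t) + r, (p.2 - x) + y)) (t, x) := by fun_prop
      have h3 := this.tendsto
      simpa using h3
    exact h1.comp h2
  have hT := Dh.tendsto_GD (z0 := z) (S0 := S) hA hG hst hsh (fun y => hlim z hz s has y)
    (fun r hr y => hlim S hS r (has.trans hr.1) y) x
  have e0 : fderiv ℝ (z t) x = GD z S s t x := ((h s t has hst).hasFDerivAt hA hG x).fderiv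
  show Tendsto (fun p : ℝ × E N => fderiv ℝ (z p.1) p.2) (𝓝 (t, x)) (𝓝 (fderiv ℝ (z t) x))
  rw [e0]
  refine hT.congr' ?_
  filter_upwards [hsh] with p hp
  rw [← (hp.hasFDerivAt hA hG x).fderiv]
  have h5 := fderiv_comp_add_left (𝕜 := ℝ) (f := z ((p.1 - t) + t)) (x := x) (p.2 - x)
  rw [h5]
  simp

/-- data -/
structure Md (A : ℝ) (f : ℝ → ℝ) (K : ℝ) (w : ℝ → E N → ℝ) : Prop where
  hA : 0 ≤ A
  hG : GB N A
  hM1 : FM N A
  hFb : ∀ s, |fp f s| ≤ K
  hFc : ContinuousOn (fp f) (Icc 0 1)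
  hF : ∀ s ∈ Icc (0 : ℝ) 1, HasDerivWithinAt f (fp f s) (Icc 0 1) s
  hL : Lip f K
  mild : Mild f 0 w
  rng : Rng 0 w

variable {A K : ℝ} {f : ℝ → ℝ} {w : ℝ → E N → ℝ}

theorem Md.mem (H : Md A f K w) {t : ℝ} (ht : 0 ≤ t) (x : E N) : w t x ∈ Icc (0 : ℝ) 1 :=
  H.rng t ht x

theorem Md.dh (H : Md A f K w) {s t : ℝ} (hs : 0 ≤ s) (hst : s < t) :
    Dh (1 + K) w (fun r x => f (w r x)) s t where
  lt := hst
  meas := Pool.Agent.H35.RD.mild_meas H.mild hs
  bz x := by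
    have h1 := H.mem hs x
    rw [abs_of_nonneg h1.1]
    linarith [h1.2, H.hL.K0]
  bS r hr x := by
    have h1 := f_abs_le H.hL (H.mem (by linarith [hr.1] : 0 ≤ r) x)
    linarith
  cS := (Pool.Agent.H35.RD.mild_comp_cont H.hL H.mild).mono (sub_Ioi hs)
  duh x := H.mild.duh s t hs hst x

theorem Md.lip (H : Md A f K w) {a : ℝ} (ha : 0 < a) :
    ∃ Λ, 0 ≤ Λ ∧ ∀ t ≥ a, ∀ x y, |w t x - w t y| ≤ Λ * ‖x - y‖ := by
  have hK := H.hL.K0
  have hA := H.hA
  refine ⟨A * (1 + K) / √a + 2 * (A * (1 + K)) * √a, by positivity, ?_⟩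
  intro t ht x y
  have h1 := (H.dh (s := t - a) (t := t) (by linarith) (by linarith)).lip H.hA H.hG x y
  rwa [show t - (t - a) = a by ring] at h1

theorem Md.cont (H : Md A f K w) : ContinuousOn (fun p : ℝ × E N => w p.1 p.2) (Ioi 0 ×ˢ univ) :=
  H.mild.cont

theorem Md.cont_fderiv (H : Md A f K w) :
    ContinuousOn (fun p : ℝ × E N => fderiv ℝ (w p.1) p.2) (Ioi 0 ×ˢ univ) :=
  cont_fderiv_of_dh H.hA H.hG H.cont (Pool.Agent.H35.RD.mild_comp_cont H.hL H.mild)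
    fun s t hs hst => H.dh hs.le hst

theorem Md.c1 (H : Md A f K w) {t : ℝ} (ht : 0 < t) : ContDiff ℝ 1 (w t) :=
  (H.dh le_rfl ht).contDiff H.hA H.hG

theorem Md.cont_dx (H : Md A f K w) (h : E N) :
    ContinuousOn (fun p : ℝ × E N => dx w h p.1 p.2) (Ioi 0 ×ˢ univ) := by
  unfold dx
  exact H.cont_fderiv.clm_apply continuousOn_const

theorem Md.cont_V (H : Md A f K w) :
    ContinuousOn (fun p : ℝ × E N => fp f (w p.1 p.2)) (Ioi 0 ×ˢ univ) :=
  H.hFc.comp H.cont fun p hp => H.mem (le_of_lt hp.1) p.2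

theorem Md.dh_dx (H : Md A f K w) {a Λ : ℝ} (ha : 0 < a) (hΛ : 0 ≤ Λ)
    (hlip : ∀ t ≥ a, ∀ x y, |w t x - w t y| ≤ Λ * ‖x - y‖) (h : E N) {s t : ℝ} (hs : a ≤ s)
    (hst : s < t) :
    Dh ((1 + K) * (Λ * ‖h‖)) (dx w h) (fun r x => fp f (w r x) * dx w h r x) s t := by
  have hK := H.hL.K0
  have hs0 : 0 < s := by linarith
  have hΛh : 0 ≤ Λ * ‖h‖ := by positivity
  -- the difference quotients
  have key : ∀ n : ℕ, Dh ((1 + K) * (Λ * ‖h‖))
      (fun r x => ((n : ℝ) + 1) * (w r ((((n : ℝ) + 1)⁻¹ • h) + x) - w r x))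
      (fun r x => ((n : ℝ) + 1) * (f (w r ((((n : ℝ) + 1)⁻¹ • h) + x)) - f (w r x))) s t := by
    intro n
    have hn : (0 : ℝ) < (n : ℝ) + 1 := by positivity
    have h0 := H.dh hs0.le hst
    have h1 : Dh (1 + K) w (fun r x => f (w r x)) (0 + s) (0 + t) := by
      rw [zero_add, zero_add]; exact h0
    have h2 := (h1.shift 0 (((n : ℝ) + 1)⁻¹ • h)).sub_mul h0 ((n : ℝ) + 1)
    simp only [zero_add] at h2
    have hq : ∀ r ≥ a, ∀ x, |w r ((((n : ℝ) + 1)⁻¹ • h) + x) - w r x| ≤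
        Λ * (((n : ℝ) + 1)⁻¹ * ‖h‖) := by
      intro r hr x
      have h3 := hlip r hr ((((n : ℝ) + 1)⁻¹ • h) + x) x
      rwa [add_sub_cancel_right, norm_smul, Real.norm_of_nonneg (by positivity)] at h3
    refine h2.bound (fun x => ?_) (fun r hr x => ?_)
    · rw [abs_mul, abs_of_pos hn]
      have h3 := mul_le_mul_of_nonneg_left (hq s hs x) hn.le
      have e : ((n : ℝ) + 1) * (Λ * (((n : ℝ) + 1)⁻¹ * ‖h‖)) = Λ * ‖h‖ := by
        field_simp
      rw [e] at h3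
      nlinarith
    · rw [abs_mul, abs_of_pos hn]
      have h3 := mul_le_mul_of_nonneg_left (hq r (by linarith [hr.1]) x) hn.le
      have e : ((n : ℝ) + 1) * (Λ * (((n : ℝ) + 1)⁻¹ * ‖h‖)) = Λ * ‖h‖ := by
        field_simp
      rw [e] at h3
      have h4 := mul_le_mul_of_nonneg_left (H.hL.lip (w r ((((n : ℝ) + 1)⁻¹ • h) + x)) (w r x))
        hn.le
      nlinarith
  have hdq : ∀ r > 0, ∀ y, HasDerivAt (fun ε : ℝ => w r (ε • h + y)) (dx w h r y) 0 := by
    intro r hr y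
    have h1 : DifferentiableAt ℝ (w r) ((0 : ℝ) • h + y) :=
      (H.c1 hr).differentiable (by norm_num) _
    have h2 : HasDerivAt (fun ε : ℝ => ε • h + y) h 0 := by
      have := ((hasDerivAt_id (0 : ℝ)).smul_const h).add_const y
      simpa using this
    have h3 := h1.hasFDerivAt.comp_hasDerivAt (0 : ℝ) h2
    have e : fderiv ℝ (w r) ((0 : ℝ) • h + y) h = dx w h r y := by
      unfold dx
      rw [zero_smul, zero_add]
    rw [← e]
    exact h3
  refine Dh.lim (l := atTop) (z := fun (n : ℕ) r x => ((n : ℝ) + 1) *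
    (w r ((((n : ℝ) + 1)⁻¹ • h) + x) - w r x)) (S := fun (n : ℕ) r x => ((n : ℝ) + 1) *
    (f (w r ((((n : ℝ) + 1)⁻¹ • h) + x)) - f (w r x)))
    hst (Filter.Eventually.of_forall key) (slice_meas (H.cont_dx h) hs0) ?_ ?_ ?_ ?_
  · exact (H.cont_V.mul (H.cont_dx h)).mono (sub_Ioi hs0.le)
  · intro y
    have h1 := tendsto_dq (hdq s hs0 y).hasDerivWithinAt
    simpa using h1
  · intro y
    have h1 := tendsto_dq (hdq t (by linarith) y).hasDerivWithinAt
    simpa using h1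
  · intro r hr y
    have hr0 : 0 < r := by linarith [hr.1]
    have h1 := tendsto_dq (chain H.hF (hdq r hr0 y).hasDerivWithinAt
      (fun ε _ => H.mem hr0.le (ε • h + y)))
    simpa using h1

theorem Md.c2 (H : Md A f K w) {t : ℝ} (ht : 0 < t) : ContDiff ℝ 2 (w t) := by
  obtain ⟨Λ, hΛ, hlip⟩ := H.lip (half_pos ht)
  rw [show (2 : WithTop ℕ∞) = 1 + 1 by norm_num, contDiff_succ_iff_fderiv_apply]
  refine ⟨(H.c1 ht).differentiable (by norm_num), by simp, fun h => ?_⟩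
  exact (H.dh_dx (half_pos ht) hΛ hlip h (s := t / 2) (t := t) le_rfl (by linarith)).contDiff
    H.hA H.hG

theorem glue {F : Type*} [TopologicalSpace F] {g : ℝ × E N → F}
    (h : ∀ a > 0, ContinuousOn g (Ioi a ×ˢ univ)) : ContinuousOn g (Ioi 0 ×ˢ univ) := by
  rintro ⟨t, x⟩ ⟨ht, -⟩
  have ht' : (0 : ℝ) < t := ht
  exact ((h (t / 2) (by linarith)).continuousAt
    (ioi_nhds (by linarith : t / 2 < t) x)).continuousWithinAt

theorem sub_Ioi_Ioi {a : ℝ} (ha : 0 ≤ a) : (Ioi a ×ˢ (univ : Set (E N))) ⊆ Ioi 0 ×ˢ univ :=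
  prod_mono (fun r hr => lt_of_le_of_lt ha hr) (subset_refl _)

theorem Md.cont_d2 (H : Md A f K w) (h : E N) :
    ContinuousOn (fun p : ℝ × E N => fderiv ℝ (dx w h p.1) p.2) (Ioi 0 ×ˢ univ) := by
  refine glue fun a ha => ?_
  obtain ⟨Λ, hΛ, hlip⟩ := H.lip ha
  exact cont_fderiv_of_dh H.hA H.hG ((H.cont_dx h).mono (sub_Ioi_Ioi ha.le))
    ((H.cont_V.mul (H.cont_dx h)).mono (sub_Ioi_Ioi ha.le))
    fun s t hs hst => H.dh_dx ha hΛ hlip h hs.le hst

theorem Md.fderiv2 (H : Md A f K w) {t : ℝ} (ht : 0 < t) (x h k : E N) :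
    fderiv ℝ (fderiv ℝ (w t)) x k h = fderiv ℝ (dx w h t) x k := by
  have h1 : DifferentiableAt ℝ (fderiv ℝ (w t)) x :=
    ((H.c2 ht).fderiv_right (m := 1) (by norm_num)).differentiable (by norm_num) x
  have h2 : fderiv ℝ (fun y => fderiv ℝ (w t) y h) x k = fderiv ℝ (fderiv ℝ (w t)) x k h := by
    rw [fderiv_clm_apply h1 (by fun_prop)]
    simp
  exact h2.symm

theorem Md.cont_fderiv2 (H : Md A f K w) :
    ContinuousOn (fun p : ℝ × E N => fderiv ℝ (fderiv ℝ (w p.1)) p.2) (Ioi 0 ×ˢ univ) := by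
  rw [continuousOn_clm_apply]
  intro k
  rw [continuousOn_clm_apply]
  intro h
  refine ((H.cont_d2 h).clm_apply (continuousOn_const (c := k))).congr ?_
  rintro ⟨t, x⟩ ⟨ht, -⟩
  exact H.fderiv2 ht x h k

theorem it2_eq (g : E N → ℝ) (x : E N) : iteratedFDeriv ℝ 2 g x =
      (continuousMultilinearCurryRightEquiv' ℝ 1 (E N) ℝ).symm
        ((continuousMultilinearCurryRightEquiv' ℝ 0 (E N) (E N →L[ℝ] ℝ)).symm
          ((continuousMultilinearCurryFin0 ℝ (E N) (E N →L[ℝ] E N →L[ℝ] ℝ)).symm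
            (fderiv ℝ (fderiv ℝ g) x))) := by
  have h1 := (iteratedFDeriv_succ_eq_comp_right (𝕜 := ℝ) (f := g) (n := 1) (x := x))
  have h2 := (iteratedFDeriv_succ_eq_comp_right (𝕜 := ℝ) (f := fun y => fderiv ℝ g y) (n := 0)
    (x := x))
  refine h1.trans ?_
  simp only [Function.comp]
  refine congrArg _ ?_
  refine h2.trans ?_
  simp only [Function.comp]
  rw [iteratedFDeriv_zero_eq_comp]
  rfl

theorem Md.cont_it2 (H : Md A f K w) :
    ContinuousOn (fun p : ℝ × E N => iteratedFDeriv ℝ 2 (w p.1) p.2) (Ioi 0 ×ˢ univ) := by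
  simp only [it2_eq]
  exact (((continuousMultilinearCurryRightEquiv' ℝ 1 (E N) ℝ).symm.continuous.comp
    ((continuousMultilinearCurryRightEquiv' ℝ 0 (E N) (E N →L[ℝ] ℝ)).symm.continuous.comp
      (continuousMultilinearCurryFin0 ℝ (E N)
        (E N →L[ℝ] E N →L[ℝ] ℝ)).symm.continuous))).comp_continuousOn H.cont_fderiv2

theorem Md.cont_lap (H : Md A f K w) :
    ContinuousOn (fun p : ℝ × E N => Laplacian.laplacian (w p.1) p.2) (Ioi 0 ×ˢ univ) := by
  simp only [Pool.Agent.H90.RD.lap_eq_sum]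
  refine continuousOn_finset_sum _ fun i _ => ?_
  exact (H.cont_fderiv2.clm_apply continuousOn_const).clm_apply continuousOn_const

end Pool.Agent.H76.RF
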