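import Pool.Agent.H76.RF.MRG

/-!
# MP_609556_an, full answer: module MRG, part 2 (time derivative, initial datum)
-/

open MeasureTheory Set Filter Topology Metric
open Pool.Agent.H29.TF
open Pool.Agent.H91.RD Pool.Agent.H91.RF

namespace Pool.Agent.H76.RF

variable {N : ℕ} {A K : ℝ} {f : ℝ → ℝ} {w : ℝ → E N → ℝ}

theorem Md.f_le (H : Md A f K w) {t : ℝ} (ht : 0 ≤ t) (x : E N) : |f (w t x)| ≤ K :=
  f_abs_le H.hL (H.mem ht x)

theorem Md.src_le (H : Md A f K w) {a Λ : ℝ} (ha : 0 < a) (hΛ : 0 ≤ Λ)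
    (hlip : ∀ t ≥ a, ∀ x y, |w t x - w t y| ≤ Λ * ‖x - y‖) {s τ : ℝ} (hs : a ≤ s) (hτ : 0 < τ)
    (x : E N) :
    |(∫ r in s..(s + τ), P (s + τ - r) (fun y => f (w r y)) x) - τ * f (w s x)| ≤
      (K * Λ * (A * √τ) + K * (Λ * (A * √τ) + (1 + K) * τ)) * τ := by
  have hK := H.hL.K0
  have hA := H.hA
  have hs0 : 0 < s := by linarith
  have e : (∫ r in s..(s + τ), P (s + τ - r) (fun y => f (w r y)) x) - τ * f (w s x) =
      ∫ r in s..(s + τ), (P (s + τ - r) (fun y => f (w r y)) x - f (w s x)) := by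
    rw [intervalIntegral.integral_sub
      (Pool.Agent.H35.RD.ii_mild H.hL H.mild hs0.le (by linarith) x) (by simp),
      intervalIntegral.integral_const]
    simp
  rw [e, ← Real.norm_eq_abs]
  have h1 := intervalIntegral.norm_integral_le_of_norm_le_const_ae
    (a := s) (b := s + τ) (f := fun r => P (s + τ - r) (fun y => f (w r y)) x - f (w s x))
    (C := K * Λ * (A * √τ) + K * (Λ * (A * √τ) + (1 + K) * τ))
    (ae_Ioo (by linarith) fun r hr => ?_)
  · rwa [show s + τ - s = τ by ring, abs_of_pos hτ] at h1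
  · have hr1 : 0 < s + τ - r := by linarith [hr.2]
    have hr2 : 0 < r - s := by linarith [hr.1]
    have hr0 : 0 < r := by linarith
    obtain ⟨m1, m2⟩ := H.hM1 _ hr1
    obtain ⟨m3, m4⟩ := H.hM1 _ hr2
    have h2 := P_sub_self_le (L := K * Λ) hr1 (by positivity) (g := fun y => f (w r y)) (M := K)
      ((H.hL.continuous.measurable).comp (Pool.Agent.H35.RD.mild_meas H.mild hr0.le))
      (fun y => H.f_le hr0.le y) m1 m2 (fun y z => by
        have h3 := H.hL.lip (w r y) (w r z)
        have h4 := mul_le_mul_of_nonneg_left (hlip r (by linarith) y z) hK.le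
        linarith) x
    have h5 := (H.dh hs0.le (by linarith [hr.1] : s < r)).time_le hΛ m3 m4 (hlip s hs) x
    have h6 := H.hL.lip (w r x) (w s x)
    have h7 := mul_le_mul_of_nonneg_left h5 hK.le
    have h8 : √(s + τ - r) ≤ √τ := Real.sqrt_le_sqrt (by linarith)
    have h9 : √(r - s) ≤ √τ := Real.sqrt_le_sqrt (by linarith [hr.2])
    have h10 : K * Λ * (A * √(s + τ - r)) ≤ K * Λ * (A * √τ) := by gcongr
    have h11 : K * (Λ * (A * √(r - s)) + (1 + K) * (r - s)) ≤
        K * (Λ * (A * √τ) + (1 + K) * τ) := by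
      have : r - s ≤ τ := by linarith [hr.2]
      gcongr
    have h12 := abs_add_le (P (s + τ - r) (fun y => f (w r y)) x - f (w r x))
      (f (w r x) - f (w s x))
    rw [show P (s + τ - r) (fun y => f (w r y)) x - f (w r x) + (f (w r x) - f (w s x)) =
      P (s + τ - r) (fun y => f (w r y)) x - f (w s x) by ring] at h12
    rw [Real.norm_eq_abs]
    linarith

theorem Md.lip_fderiv (H : Md A f K w) {s : ℝ} (hs : 0 < s) :
    ∃ C, 0 ≤ C ∧ ∀ x y, ‖fderiv ℝ (w s) x - fderiv ℝ (w s) y‖ ≤ C * ‖x - y‖ := by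
  obtain ⟨Λ, hΛ, hlip⟩ := H.lip (half_pos hs)
  have hK := H.hL.K0
  have hA := H.hA
  have hs2 : s / 2 < s := by linarith
  set a := s - s / 2 with ha
  refine ⟨A * ((1 + K) * Λ) / √a + 2 * (A * ((1 + K) * Λ)) * √a, by positivity, fun x y => ?_⟩
  refine ContinuousLinearMap.opNorm_le_bound _ (by positivity) fun h => ?_
  have h1 := (H.dh_dx (half_pos hs) hΛ hlip h (s := s / 2) (t := s) le_rfl hs2).lip hA H.hG x y
  rw [Real.norm_eq_abs]
  refine h1.trans (le_of_eq ?_)
  ring

theorem Md.rderiv (H : Md A f K w) {s : ℝ} (hs : 0 < s) (x : E N) :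
    HasDerivWithinAt (fun t => w t x) (Laplacian.laplacian (w s) x + f (w s x)) (Ioi s) s := by
  have hK := H.hL.K0
  have hA := H.hA
  obtain ⟨Λ, hΛ, hlip⟩ := H.lip hs
  obtain ⟨C, hC0, hC⟩ := H.lip_fderiv hs
  have h1 := tendsto_gen (M := 1) (H.c2 hs) (fun x => by
    have := H.mem hs.le x
    rw [abs_of_nonneg this.1]
    exact this.2) hC0 hC x
  have h2 : Tendsto (fun τ => (∫ r in s..(s + τ), P (s + τ - r) (fun y => f (w r y)) x) / τ)
      (𝓝[>] 0) (𝓝 (f (w s x))) := by
    rw [tendsto_iff_norm_sub_tendsto_zero]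
    have h3 : Tendsto (fun τ : ℝ => K * Λ * (A * √τ) + K * (Λ * (A * √τ) + (1 + K) * τ)) (𝓝[>] 0)
        (𝓝 0) := by
      have : ContinuousAt (fun τ : ℝ => K * Λ * (A * √τ) + K * (Λ * (A * √τ) + (1 + K) * τ)) 0 := by
        fun_prop
      have h5 := this.tendsto
      simp only [Real.sqrt_zero, mul_zero, add_zero] at h5
      exact h5.mono_left nhdsWithin_le_nhds
    refine squeeze_zero' (Eventually.of_forall fun τ => norm_nonneg _) ?_ h3
    filter_upwards [self_mem_nhdsWithin] with τ hτ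
    have hτ' : 0 < τ := hτ
    have h4 := H.src_le hs hΛ hlip le_rfl hτ' x
    rw [Real.norm_eq_abs]
    have e : (∫ r in s..(s + τ), P (s + τ - r) (fun y => f (w r y)) x) / τ - f (w s x) =
        ((∫ r in s..(s + τ), P (s + τ - r) (fun y => f (w r y)) x) - τ * f (w s x)) / τ := by
      field_simp
    rw [e, abs_div, abs_of_pos hτ', div_le_iff₀ hτ']
    exact h4
  have h3 := h1.add h2
  rw [hasDerivWithinAt_iff_tendsto_slope' (by simp : s ∉ Ioi s)]
  have h4 : Tendsto (fun t : ℝ => t - s) (𝓝[>] s) (𝓝[>] 0) := by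
    apply tendsto_nhdsWithin_of_tendsto_nhds_of_eventually_within
    · have : ContinuousAt (fun t : ℝ => t - s) s := by fun_prop
      have h5 := this.tendsto
      rw [sub_self] at h5
      exact h5.mono_left nhdsWithin_le_nhds
    · filter_upwards [self_mem_nhdsWithin] with t ht
      have : s < t := ht
      exact sub_pos.2 this
  refine (h3.comp h4).congr' ?_
  filter_upwards [self_mem_nhdsWithin] with t ht
  have hst : s < t := ht
  simp only [Function.comp, slope_def_field]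
  rw [show s + (t - s) = t by ring, H.mild.duh s t hs.le hst x]
  ring

theorem hasDerivAt_of_right {φ ψ : ℝ → ℝ} {a : ℝ} (hφ : ContinuousOn φ (Ioi a))
    (hψ : ContinuousOn ψ (Ioi a)) (h : ∀ s > a, HasDerivWithinAt φ (ψ s) (Ioi s) s) {t : ℝ}
    (ht : a < t) : HasDerivAt φ (ψ t) t := by
  set b := (a + t) / 2 with hb
  have hab : a < b := by rw [hb]; linarith
  have hbt : b < t := by rw [hb]; linarith
  have hsub : ∀ s, b ≤ s → uIcc b s ⊆ Ioi a := by
    intro s hs r hr
    rw [uIcc_of_le hs] at hr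
    exact hab.trans_le hr.1
  have hI : ∀ s ≥ b, HasDerivAt (fun s => ∫ r in b..s, ψ r) (ψ s) s := by
    intro s hs
    have hsa : a < s := hab.trans_le hs
    refine intervalIntegral.integral_hasDerivAt_right
      ((hψ.mono (hsub s hs)).intervalIntegrable) ?_ (hψ.continuousAt (Ioi_mem_nhds hsa))
    exact (hψ.stronglyMeasurableAtFilter isOpen_Ioi s hsa)
  have hG : ∀ s ∈ Icc b (t + 1), φ s - (∫ r in b..s, ψ r) = φ b - ∫ r in b..b, ψ r := by
    apply constant_of_has_deriv_right_zero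
    · refine ContinuousOn.sub (hφ.mono fun s hs => hab.trans_le hs.1) ?_
      exact fun s hs => (hI s hs.1).continuousAt.continuousWithinAt
    · intro s hs
      have h1 := (h s (hab.trans_le hs.1)).Ici_of_Ioi
      have h2 := h1.sub (hI s hs.1).hasDerivWithinAt
      rwa [sub_self] at h2
  have h3 : HasDerivAt (fun s => (φ b - ∫ r in b..b, ψ r) + ∫ r in b..s, ψ r) (ψ t) t :=
    (hI t hbt.le).const_add _
  refine h3.congr_of_eventuallyEq ?_
  filter_upwards [Ioo_mem_nhds hbt (by linarith : t < t + 1)] with s hs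
  have := hG s ⟨hs.1.le, hs.2.le⟩
  linarith

theorem Md.cont_time (H : Md A f K w) {F : Type*} [TopologicalSpace F] {g : ℝ → E N → F}
    (hg : ContinuousOn (fun p : ℝ × E N => g p.1 p.2) (Ioi 0 ×ˢ univ)) (x : E N) :
    ContinuousOn (fun t => g t x) (Ioi 0) :=
  hg.comp (f := fun t : ℝ => (t, x)) (by fun_prop) fun t ht => ⟨ht, mem_univ _⟩

theorem Md.hasDerivAt (H : Md A f K w) {t : ℝ} (ht : 0 < t) (x : E N) :
    HasDerivAt (fun s => w s x) (Laplacian.laplacian (w t) x + f (w t x)) t :=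
  hasDerivAt_of_right (ψ := fun s => Laplacian.laplacian (w s) x + f (w s x))
    (H.cont_time (g := w) H.cont x)
    ((H.cont_time (g := fun t x => Laplacian.laplacian (w t) x) H.cont_lap x).add
      (H.cont_time (g := fun t x => f (w t x))
        (Pool.Agent.H35.RD.mild_comp_cont H.hL H.mild) x))
    (fun s hs => H.rderiv hs x) ht

theorem Md.cont_dt (H : Md A f K w) :
    ContinuousOn (fun p : ℝ × E N => deriv (fun s => w s p.2) p.1) (Ioi 0 ×ˢ univ) := by
  refine (H.cont_lap.add (Pool.Agent.H35.RD.mild_comp_cont H.hL H.mild)).congr ?_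
  rintro ⟨t, x⟩ ⟨ht, -⟩
  exact (H.hasDerivAt ht x).deriv

theorem Md.sub_P_le (H : Md A f K w) {t : ℝ} (ht : 0 < t) (x : E N) :
    |w t x - P t (w 0) x| ≤ K * t := by
  have h1 := H.mild.duh 0 t le_rfl ht x
  rw [sub_zero] at h1
  rw [h1, add_sub_cancel_left]
  have h2 := Pool.Agent.H35.RD.abs_duh_le (h := fun r y => f (w r y)) (M := K) ht.le
    (fun r hr x => H.f_le hr.1.le x) x
  rwa [sub_zero] at h2

theorem Md.l1 (H : Md A f K w) {R : ℝ} (hR : 0 < R) :
    Tendsto (fun t => ∫ x in ball (0 : E N) R, |w t x - w 0 x|) (𝓝[>] 0) (𝓝 0) := by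
  have hb : ∀ x, |w 0 x| ≤ 1 := fun x => by
    have := H.mem le_rfl x
    rw [abs_of_nonneg this.1]
    exact this.2
  have hm := H.mild.meas
  have h1 := tendsto_L1 H.hM1 hm hb hR
  have h2 : Tendsto (fun t : ℝ => (∫ x in ball (0 : E N) R, |P t (w 0) x - w 0 x|) +
      volume.real (ball (0 : E N) R) * (K * t)) (𝓝[>] 0) (𝓝 0) := by
    have h3 : Tendsto (fun t : ℝ => volume.real (ball (0 : E N) R) * (K * t)) (𝓝[>] 0) (𝓝 0) := by
      have : ContinuousAt (fun t : ℝ => volume.real (ball (0 : E N) R) * (K * t)) 0 := by fun_prop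
      have h5 := this.tendsto
      simp only [mul_zero] at h5
      exact h5.mono_left nhdsWithin_le_nhds
    simpa using h1.add h3
  refine squeeze_zero' (Eventually.of_forall fun t => integral_nonneg fun x => abs_nonneg _) ?_ h2
  filter_upwards [self_mem_nhdsWithin] with t ht
  have ht' : 0 < t := ht
  have i1 : IntegrableOn (fun x : E N => |P t (w 0) x - w 0 x|) (ball (0 : E N) R) := by
    haveI : IsFiniteMeasure ((volume : Measure (E N)).restrict (ball (0 : E N) R)) :=
      ⟨by rw [Measure.restrict_apply_univ]; exact measure_ball_lt_top⟩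
    refine Integrable.of_bound (C := 2) (((aesm_P hm.aestronglyMeasurable).sub
      hm.aestronglyMeasurable).norm).restrict (Eventually.of_forall fun x => ?_)
    rw [Real.norm_of_nonneg (abs_nonneg _)]
    have h3 := abs_P_le ht' hb x
    have h4 := abs_sub (P t (w 0) x) (w 0 x)
    have h5 := hb x
    linarith
  have i2 : IntegrableOn (fun _ : E N => K * t) (ball (0 : E N) R) :=
    integrableOn_const measure_ball_lt_top.ne
  have e : (∫ x in ball (0 : E N) R, |P t (w 0) x - w 0 x|) +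
      volume.real (ball (0 : E N) R) * (K * t) =
      ∫ x in ball (0 : E N) R, (|P t (w 0) x - w 0 x| + K * t) := by
    rw [integral_add i1 i2, setIntegral_const, smul_eq_mul]
  rw [e]
  refine integral_mono_of_nonneg (Eventually.of_forall fun x => abs_nonneg _) (i1.add i2)
    (Eventually.of_forall fun x => ?_)
  have h3 := H.sub_P_le ht' x
  have h4 := abs_add_le (w t x - P t (w 0) x) (P t (w 0) x - w 0 x)
  rw [sub_add_sub_cancel] at h4
  show |w t x - w 0 x| ≤ |P t (w 0) x - w 0 x| + K * t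
  linarith

theorem Md.cont0 (H : Md A f K w) (huc : UniformContinuous (w 0)) :
    ContinuousOn (fun p : ℝ × E N => w p.1 p.2) (Ici 0 ×ˢ univ) := by
  have hK := H.hL.K0
  have hb : ∀ x, |w 0 x| ≤ 1 := fun x => by
    have := H.mem le_rfl x
    rw [abs_of_nonneg this.1]
    exact this.2
  have hm := H.mild.meas
  rintro ⟨t, x⟩ ⟨ht, -⟩
  have ht0 : 0 ≤ t := ht
  rcases ht0.eq_or_lt with h0 | h0
  · subst h0
    show Tendsto (fun p : ℝ × E N => w p.1 p.2) (𝓝[Ici 0 ×ˢ univ] (0, x)) (𝓝 (w 0 x))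
    rw [Metric.tendsto_nhds]
    intro ε hε
    obtain ⟨δ, hδ, huδ⟩ := Metric.uniformContinuous_iff.1 huc (ε / 4) (by positivity)
    have huc' : ∀ y z, ‖y - z‖ ≤ δ / 2 → |w 0 y - w 0 z| ≤ ε / 4 := by
      intro y z hyz
      have := huδ (a := y) (b := z) (by rw [dist_eq_norm]; linarith)
      rw [Real.dist_eq] at this
      exact this.le
    have e1 : Tendsto (fun p : ℝ × E N => 2 * 1 / (δ / 2) * (A * √p.1) + K * p.1)
        (𝓝 ((0 : ℝ), x)) (𝓝 0) := by
      have : ContinuousAt (fun p : ℝ × E N => 2 * 1 / (δ / 2) * (A * √p.1) + K * p.1)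
        ((0 : ℝ), x) := by fun_prop
      have h5 := this.tendsto
      simpa using h5
    have e2 := e1.eventually (gt_mem_nhds (by positivity : 0 < ε / 4))
    have e3 : ∀ᶠ p : ℝ × E N in 𝓝 ((0 : ℝ), x), ‖p.2 - x‖ < δ / 2 := by
      have : Tendsto (fun p : ℝ × E N => ‖p.2 - x‖) (𝓝 ((0 : ℝ), x)) (𝓝 0) := by
        have h6 : ContinuousAt (fun p : ℝ × E N => ‖p.2 - x‖) ((0 : ℝ), x) := by fun_prop
        have h7 := h6.tendsto
        simpa using h7
      exact this.eventually (gt_mem_nhds (by positivity))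
    filter_upwards [nhdsWithin_le_nhds e2, nhdsWithin_le_nhds e3, self_mem_nhdsWithin] with p h2 h3 h4
    have hp : 0 ≤ p.1 := h4.1
    have h5 := huc' p.2 x h3.le
    have h6 : |w p.1 p.2 - w 0 p.2| ≤ ε / 4 + (2 * 1 / (δ / 2) * (A * √p.1) + K * p.1) := by
      rcases hp.eq_or_lt with hp0 | hp0
      · rw [← hp0, sub_self, abs_zero]
        simp only [Real.sqrt_zero, mul_zero, add_zero]
        positivity
      · have h7 := P_near H.hM1 hm.aestronglyMeasurable hb (by positivity : 0 ≤ ε / 4)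
          (by positivity : 0 < δ / 2) huc' hp0 p.2
        have h8 := H.sub_P_le hp0 p.2
        have h9 := abs_add_le (w p.1 p.2 - P p.1 (w 0) p.2) (P p.1 (w 0) p.2 - w 0 p.2)
        rw [sub_add_sub_cancel] at h9
        linarith
    have h7 := abs_add_le (w p.1 p.2 - w 0 p.2) (w 0 p.2 - w 0 x)
    rw [sub_add_sub_cancel] at h7
    rw [Real.dist_eq]
    linarith
  · exact (H.cont.continuousAt (ioi_nhds h0 x)).continuousWithinAt

theorem mrg (h1 : T_FPC) (h2 : T_GRAD) : T_MRG := by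
  intro N f K w hR hL hw hr
  obtain ⟨hFb, hFc, hFm, hF⟩ := h1 f K hR hL
  obtain ⟨A, hA1, hG, hm⟩ := h2 N
  have H : Md A f K w := ⟨by linarith, hG, hm, hFb, hFc, hF, hL, hw, hr⟩
  exact ⟨fun t ht => H.c2 ht, fun t ht x => H.hasDerivAt ht x, H.cont_fderiv, H.cont_it2, H.cont_dt,
    fun R hR => H.l1 hR, H.cont0⟩

end Pool.Agent.H76.RF
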